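import Pool.Agent.Lib.MP_21a058_co.P.Defs

/-! MP_21a058_co, all tuples: disjoint spanning trees and the rest of the graph. -/

namespace Pool.Agent.Lib.MP_21a058_co.Every

open Finset
open Pool.Agent.Lib.MP_21a058_co.P

variable {V E : Type} [Fintype V] [DecidableEq V] [Fintype E] [DecidableEq E] (a b : E → V)

/-- `T` is a spanning tree. -/
def Tree (T : Finset E) : Prop := ConnOn a b T univ ∧ T.card + 1 = Fintype.card V

/-- Pairwise disjoint spanning trees. -/
def Trees {n : ℕ} (B : Fin n → Finset E) : Prop :=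
  (∀ i, Tree a b (B i)) ∧ ∀ i j, i ≠ j → Disjoint (B i) (B j)

/-- The union of the trees. -/
def un {n : ℕ} (B : Fin n → Finset E) : Finset E := univ.biUnion B

omit [Fintype V] [DecidableEq V] in
theorem mem_un {n : ℕ} {B : Fin n → Finset E} {e : E} : e ∈ un B ↔ ∃ i, e ∈ B i := by
  simp [un]

end Pool.Agent.Lib.MP_21a058_co.Every
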