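import Pool.Agent.Lib.MP_21a058_co.Every.TrB
import Pool.Agent.Lib.MP_21a058_co.P.PackS

/-! Elementary facts on one spanning tree (MP_21a058_co): no cycle inside a set, and a connected
class contains a tree. -/

namespace Pool.Agent.Lib.MP_21a058_co.Every

open Finset
open Pool.Agent.Lib.MP_21a058_co.P

variable {V E : Type} [Fintype V] [DecidableEq V] [Fintype E] [DecidableEq E] (a b : E → V)

/-- no cycle inside `X` -/
theorem Tree.ins_le {T : Finset E} (h : Tree a b T) {X : Finset V} (hX : X.Nonempty) :
    (T ∩ ins a b X).card + 1 ≤ X.card := by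
  classical
  obtain ⟨x0, hx0⟩ := hX
  have h1 : Fintype.card V ≤ rk a b T + 1 := by
    have := card_le_of_conn a b h.1
    rwa [card_univ] at this
  have h2 : T.card ≤ rk a b T := by
    have := h.2
    omega
  have h3 : rk a b T ≤ rk a b (T ∩ ins a b X) + (T \ ins a b X).card := by
    apply rk_le_add_card
    intro e he
    rw [mem_union, mem_inter, mem_sdiff]
    by_cases h4 : e ∈ ins a b X
    · exact Or.inl ⟨he, h4⟩
    · exact Or.inr ⟨he, h4⟩
  have h4 : (T ∩ ins a b X).card + (T \ ins a b X).card = T.card := by
    rw [← card_union_of_disjoint]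
    · congr 1
      ext e
      simp only [mem_union, mem_inter, mem_sdiff]
      tauto
    · rw [disjoint_left]
      intro e h5 h6
      exact (mem_sdiff.1 h6).2 (mem_inter.1 h5).2
  have h5 : rk a b (T ∩ ins a b X) +
      (univ.image (fun v => if v ∈ X then x0 else v)).card ≤ Fintype.card V := by
    apply rk_add_image_le
    intro e he
    obtain ⟨h6, h7⟩ := (mem_ins a b).1 (mem_inter.1 he).2
    simp only [h6, h7, if_true]
  have h6 : (insert x0 Xᶜ).card ≤ (univ.image (fun v => if v ∈ X then x0 else v)).card := by
    apply card_le_card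
    intro v hv
    rw [mem_image]
    rcases mem_insert.1 hv with rfl | hv
    · exact ⟨v, mem_univ _, by simp [hx0]⟩
    · exact ⟨v, mem_univ _, by simp [mem_compl.1 hv]⟩
  rw [card_insert_of_notMem (fun h => (mem_compl.1 h) hx0), card_compl] at h6
  have h7 : X.card ≤ Fintype.card V := card_le_univ X
  omega

/-- a connected class contains a tree -/
theorem exists_tree_sub (hV : Nonempty V) {F : Finset E} (h : ConnOn a b F univ) :
    ∃ T ⊆ F, Tree a b T := by
  have h0 : 0 < Fintype.card V := Fintype.card_pos
  have hle : ∀ J, rk a b J ≤ Fintype.card V - 1 := by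
    intro J
    have h2 := rk_add_image_le a b (F := J) (fun _ => ()) (fun _ _ => rfl)
    have h3 : 0 < ((univ : Finset V).image fun _ => ()).card := by
      rw [card_pos]
      exact univ_nonempty.image _
    omega
  have hF := card_le_of_conn a b h
  rw [card_univ] at hF
  obtain ⟨T, h1, -, h3⟩ := MP21a058.pack_rk (t := 1) (rk_rk a b) F (Fintype.card V - 1)
    (fun J _ => hle J) (fun J hJ => by
      have h4 := rk_le_add_card a b (F := F) (F' := J) (C := F \ J) (by
        rw [union_sdiff_of_subset hJ])
      omega)
  refine ⟨T 0, h1 0, ?_, ?_⟩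
  · apply conn_of_card_le a b
    · intro e _
      rw [mem_ins]
      exact ⟨mem_univ _, mem_univ _⟩
    · rw [card_univ, (h3 0).2]
      omega
  · rw [(h3 0).1]
    omega

end Pool.Agent.Lib.MP_21a058_co.Every
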