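import Pool.Agent.Lib.MP_21a058_co.Every.Defs
import Pool.Agent.Lib.MP_21a058_co.P.Rank
import Pool.Agent.Lib.MP_21a058_co.P.PackS
import Pool.Agent.Lib.MP_21a058_co.P.Pack
import Pool.Agent.Lib.MP_21a058_co.P.Corners

/-! MP_21a058_co, all tuples, (F1): the two groups of trees and the laminar family. -/

set_option linter.unusedSectionVars false
set_option linter.unusedVariables false

namespace Pool.Agent.Lib.MP_21a058_co.Every

open Finset
open Pool.Agent.Lib.MP_21a058_co.P

variable {V E : Type} [Fintype V] [DecidableEq V] [Fintype E] [DecidableEq E] (a b : E → V)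

/-- a connected class contains a tree -/
theorem grp_tree (hV : Nonempty V) {F : Finset E} (h : ConnOn a b F univ) :
    ∃ T ⊆ F, Tree a b T := by
  have h0 : 0 < Fintype.card V := Fintype.card_pos
  have hle : ∀ J, rk a b J ≤ Fintype.card V - 1 := by
    intro J
    have h2 := rk_add_image_le a b (F := J) (fun _ => ()) (fun _ _ => rfl)
    have h3 : 0 < ((univ : Finset V).image fun _ => ()).card := by
      rw [card_pos]
      exact univ_nonempty.image _
    omega
  have hF := card_le_of_conn a b h
  rw [card_univ] at hF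
  obtain ⟨T, h1, -, h3⟩ := MP21a058.pack_rk (t := 1) (rk_rk a b) F (Fintype.card V - 1)
    (fun J _ => hle J) (fun J hJ => by
      have h4 := rk_le_add_card a b (F := F) (F' := J) (C := F \ J) (by
        rw [union_sdiff_of_subset hJ])
      omega)
  refine ⟨T 0, h1 0, ?_, ?_⟩
  · apply conn_of_card_le a b
    · intro e _
      rw [mem_ins]
      exact ⟨mem_univ _, mem_univ _⟩
    · rw [card_univ, (h3 0).2]
      omega
  · rw [(h3 0).1]
    omega

/-- (F1): the two groups of trees and the laminar family -/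
theorem exists_groups (hV : Nonempty V) (r : V) {t u q : ℕ} (ht : 0 < t)
    (hcut : ∀ Y : Finset V, Y.Nonempty → Y ≠ univ → 2 * (t + u) ≤ (cut a b Y).card)
    (hq : 2 * q ≤ 3 * u + 1) :
    ∃ B : Fin t → Finset E, Trees a b B ∧
      (∀ Y : Finset V, Y.Nonempty → Y ≠ univ → u ≤ (cut a b Y \ un B).card) ∧
      ∀ X Y : Finset V, r ∉ X → r ∉ Y → (cut a b X \ un B).card < q →
        (cut a b Y \ un B).card < q → X ⊆ Y ∨ Y ⊆ X ∨ Disjoint X Y := by
  obtain ⟨lab, hlab⟩ := pack a b (t + u) (by omega) hcut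
  have hex : ∀ i : Fin t, ∃ T ⊆ cls lab (Fin.castAdd u i), Tree a b T := fun i =>
    grp_tree a b hV (hlab _)
  choose B hBs hBt using hex
  -- the rest contains the other classes
  have hsub : ∀ (Y : Finset V), (univ.biUnion fun j : Fin u => cls lab (Fin.natAdd t j) ∩
      cut a b Y) ⊆ cut a b Y \ un B := by
    intro Y e he
    obtain ⟨j, -, hj⟩ := mem_biUnion.1 he
    rw [mem_inter, mem_cls] at hj
    rw [mem_sdiff]
    refine ⟨hj.2, fun hu => ?_⟩
    obtain ⟨i, hi⟩ := mem_un.1 hu
    have h1 := (mem_cls lab).1 (hBs i hi)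
    rw [hj.1] at h1
    have h2 := congrArg Fin.val h1
    simp only [Fin.val_natAdd, Fin.val_castAdd] at h2
    have := i.isLt
    omega
  have hsum : ∀ (Y : Finset V), ∑ j : Fin u, (cls lab (Fin.natAdd t j) ∩ cut a b Y).card ≤
      (cut a b Y \ un B).card := by
    intro Y
    rw [← card_biUnion]
    · exact card_le_card (hsub Y)
    · intro i _ j _ hij
      rw [Function.onFun, disjoint_left]
      intro e h1 h2
      rw [mem_inter, mem_cls] at h1 h2
      apply hij
      have h3 := h1.1.symm.trans h2.1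
      have h4 := congrArg Fin.val h3
      simp only [Fin.val_natAdd] at h4
      exact Fin.ext (by omega)
  refine ⟨B, ⟨hBt, ?_⟩, ?_, ?_⟩
  · intro i j hij
    rw [disjoint_left]
    intro e h1 h2
    apply hij
    have h3 := ((mem_cls lab).1 (hBs i h1)).symm.trans ((mem_cls lab).1 (hBs j h2))
    have h4 := congrArg Fin.val h3
    simp only [Fin.val_castAdd] at h4
    exact Fin.ext h4
  · intro Y hY hYu
    refine le_trans ?_ (hsum Y)
    have h1 : ∑ _j : Fin u, 1 ≤ ∑ j : Fin u, (cls lab (Fin.natAdd t j) ∩ cut a b Y).card := by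
      apply sum_le_sum
      intro j _
      obtain ⟨e, he, -, hc⟩ := hlab (Fin.natAdd t j) Y (subset_univ _) hY hYu
      exact card_pos.2 ⟨e, mem_inter.2 ⟨he, hc⟩⟩
    simpa using h1
  · intro X Y hrX hrY hX hY
    by_contra hcon
    rw [not_or, not_or] at hcon
    obtain ⟨h1, h2, h3⟩ := hcon
    have g1 : (X ∩ Y).Nonempty := by
      rw [not_disjoint_iff] at h3
      obtain ⟨x, hx1, hx2⟩ := h3
      exact ⟨x, mem_inter.2 ⟨hx1, hx2⟩⟩
    have g2 : (X \ Y).Nonempty := by
      rw [sdiff_nonempty]
      exact h1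
    have g3 : (Y \ X).Nonempty := by
      rw [sdiff_nonempty]
      exact h2
    have g4 : X ∪ Y ≠ univ := by
      intro h
      have h5 : r ∈ X ∪ Y := by rw [h]; exact mem_univ r
      rw [mem_union] at h5
      exact h5.elim hrX hrY
    have h6 : ∑ _j : Fin u, 3 ≤ ∑ j : Fin u, ((cls lab (Fin.natAdd t j) ∩ cut a b X).card +
        (cls lab (Fin.natAdd t j) ∩ cut a b Y).card) :=
      sum_le_sum fun j _ => corners_le (hlab _) g1 g2 g3 g4
    rw [sum_add_distrib, sum_const, card_univ, Fintype.card_fin, smul_eq_mul] at h6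
    have h7 := hsum X
    have h8 := hsum Y
    omega

end Pool.Agent.Lib.MP_21a058_co.Every
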