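import Pool.Agent.Lib.MP_21a058_co.Every.Defs
import Pool.Agent.Lib.MP_21a058_co.P.Rank
import Pool.Agent.Lib.MP_21a058_co.P.PackS
import Pool.Agent.Lib.MP_21a058_co.Thin.Round

/-! MP_21a058_co, all tuples, (E): `T` of `t` disjoint trees, rounded along a laminar family. -/

set_option linter.unusedSectionVars false
set_option linter.unusedVariables false

namespace Pool.Agent.Lib.MP_21a058_co.Every

open Finset
open Pool.Agent.Lib.MP_21a058_co.P
open MP21a058

/-- rounding `T` of `t` disjoint bases, for any rank function -/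
theorem round_rk {V E : Type} [DecidableEq V] [Fintype E] [DecidableEq E] {r : Finset E → ℕ}
    (hr : Rk r) (ρ : ℕ) {t T : ℕ} (hT : T ≤ t) (ht : 0 < t) (B : Fin t → Finset E)
    (hB : ∀ i, (B i).card = ρ ∧ r (B i) = ρ) (hd : ∀ i j, i ≠ j → Disjoint (B i) (B j))
    (hle : ∀ J, r J ≤ ρ) (p : E → V) (L : Finset (Finset V))
    (hlam : ∀ X ∈ L, ∀ Y ∈ L, X ⊆ Y ∨ Y ⊆ X ∨ Disjoint X Y) :
    ∃ C : Fin T → Finset E, (∀ i, (C i).card = ρ ∧ r (C i) = ρ) ∧
      (∀ i j, i ≠ j → Disjoint (C i) (C j)) ∧ un C ⊆ un B ∧ ∀ Y ∈ L,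
      t * ((un C).filter fun e => p e ∈ Y).card ≤
        T * ((un B).filter fun e => p e ∈ Y).card + (t - 1) := by
  classical
  rcases isEmpty_or_nonempty E with hE | hE
  · have h0 : ρ = 0 := by
      have h1 := (hB ⟨0, ht⟩).1
      have h2 : B ⟨0, ht⟩ = ∅ := eq_empty_of_isEmpty _
      rw [h2, card_empty] at h1
      exact h1.symm
    refine ⟨fun _ => ∅, fun i => ⟨by rw [card_empty, h0], by rw [hr.emp, h0]⟩,
      fun i j _ => disjoint_empty_left _, fun e _ => hE.elim e, fun Y _ => ?_⟩
    have h3 : (un (fun _ : Fin T => (∅ : Finset E))).filter (fun e => p e ∈ Y) = ∅ :=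
      eq_empty_of_isEmpty _
    rw [h3, card_empty, mul_zero]
    exact Nat.zero_le _
  haveI : NeZero t := ⟨by omega⟩
  let S : Finset V → Finset E := fun Y => univ.filter fun e => p e ∈ Y
  have hSmem : ∀ Y e, e ∈ S Y ↔ p e ∈ Y := fun Y e => by simp [S]
  let F : Finset (Finset E) :=
    ((insert univ (univ.image fun e : E => ({e} : Finset E))) ∪ L.image S).filter
      Finset.Nonempty
  have hF : ∀ Z, Z ∈ F ↔ (Z = univ ∨ (∃ e, {e} = Z) ∨ ∃ Y ∈ L, S Y = Z) ∧ Z.Nonempty := by
    intro Z
    simp only [F, mem_filter, mem_union, mem_insert, mem_image, mem_univ, true_and, or_assoc]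
  have hne : ∀ Z ∈ F, Z.Nonempty := fun Z hZ => ((hF Z).1 hZ).2
  have hsing : ∀ x : E, {x} ∈ F := fun x =>
    (hF _).2 ⟨Or.inr (Or.inl ⟨x, rfl⟩), singleton_nonempty x⟩
  have htop : univ ∈ F := (hF _).2 ⟨Or.inl rfl, univ_nonempty⟩
  have hone : ∀ (e : E) (Z : Finset E), {e} ⊆ Z ∨ Disjoint {e} Z := by
    intro e Z
    by_cases h : e ∈ Z
    · exact Or.inl (singleton_subset_iff.2 h)
    · exact Or.inr (disjoint_singleton_left.2 h)
  have hlamF : ∀ Z ∈ F, ∀ Z' ∈ F, Z ⊆ Z' ∨ Z' ⊆ Z ∨ Disjoint Z Z' := by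
    intro Z hZ Z' hZ'
    rcases ((hF Z).1 hZ).1 with rfl | ⟨e, rfl⟩ | ⟨Y, hY, rfl⟩
    · exact Or.inr (Or.inl (subset_univ _))
    · rcases hone e Z' with h | h
      · exact Or.inl h
      · exact Or.inr (Or.inr h)
    · rcases ((hF Z').1 hZ').1 with rfl | ⟨e, rfl⟩ | ⟨Y', hY', rfl⟩
      · exact Or.inl (subset_univ _)
      · rcases hone e (S Y) with h | h
        · exact Or.inr (Or.inl h)
        · exact Or.inr (Or.inr h.symm)
      · rcases hlam Y hY Y' hY' with h | h | h
        · exact Or.inl fun e he => (hSmem _ _).2 (h ((hSmem _ _).1 he))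
        · exact Or.inr (Or.inl fun e he => (hSmem _ _).2 (h ((hSmem _ _).1 he)))
        · refine Or.inr (Or.inr (disjoint_left.2 fun e h1 h2 => ?_))
          exact disjoint_left.1 h ((hSmem _ _).1 h1) ((hSmem _ _).1 h2)
  let B' : Fin t → Finset (E × Fin T) := fun i =>
    univ.filter fun x => x.1 ∈ B (i + Fin.castLE hT x.2)
  have hB'mem : ∀ i x, x ∈ B' i ↔ x.1 ∈ B (i + Fin.castLE hT x.2) := fun i x => by simp [B']
  have hslc : ∀ i c, slc (B' i) c = B (i + Fin.castLE hT c) := by
    intro i c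
    ext e
    rw [mem_slc, hB'mem]
  have hB'c : ∀ i, (B' i).card = T * ρ ∧ (∑ c, r (slc (B' i) c)) = T * ρ := by
    intro i
    constructor
    · rw [← sum_card_slc, sum_congr rfl (fun c _ => by rw [hslc, (hB _).1]), sum_const,
        card_univ, Fintype.card_fin, smul_eq_mul]
    · rw [sum_congr rfl (fun c _ => by rw [hslc, (hB _).2]), sum_const, card_univ,
        Fintype.card_fin, smul_eq_mul]
  have hd' : ∀ i j, i ≠ j → Disjoint (B' i) (B' j) := by
    intro i j hij
    rw [disjoint_left]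
    intro x h1 h2
    rw [hB'mem] at h1 h2
    exact disjoint_left.1 (hd _ _ (fun h => hij (add_right_cancel h))) h1 h2
  have hρ : (∑ c, r (slc (univ.biUnion B') c)) ≤ T * ρ := by
    refine (sum_le_sum fun c _ => hle _).trans ?_
    rw [sum_const, card_univ, Fintype.card_fin, smul_eq_mul]
  obtain ⟨A, hA, hAc, hAr, hAW⟩ := Thin.laminar_round hne hlamF hsing htop
    (Prod.fst : E × Fin T → E) (slc_rk hr) (T * ρ) t ht B' hB'c hd' hρ
  have hAr' : (∑ c, r (slc A c)) = T * ρ := hAr
  have huniq : ∀ e c c', (e, c) ∈ A → (e, c') ∈ A → c = c' := by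
    intro e c c' h1 h2
    by_contra hcc
    have h3 := hAW {e} (hsing e)
    have h4 : 2 ≤ (A.filter fun x => x.1 ∈ ({e} : Finset E)).card := by
      have h5 : ({(e, c), (e, c')} : Finset (E × Fin T)) ⊆
          A.filter fun x => x.1 ∈ ({e} : Finset E) := by
        intro x hx
        rw [mem_insert, mem_singleton] at hx
        rw [mem_filter]
        rcases hx with rfl | rfl
        · exact ⟨h1, mem_singleton_self e⟩
        · exact ⟨h2, mem_singleton_self e⟩
      have h6 := card_le_card h5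
      rwa [card_pair (fun h => hcc (Prod.mk.inj h).2)] at h6
    have h7 : ((univ.biUnion B').filter fun x => x.1 ∈ ({e} : Finset E)).card ≤ T := by
      have h8 : ((univ.biUnion B').filter fun x => x.1 ∈ ({e} : Finset E)) ⊆
          univ.image fun c : Fin T => (e, c) := by
        rintro ⟨e', c0⟩ hx
        rw [mem_filter, mem_singleton] at hx
        have h9 : e' = e := hx.2
        subst h9
        exact mem_image_of_mem _ (mem_univ c0)
      refine (card_le_card h8).trans (card_image_le.trans ?_)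
      rw [card_univ, Fintype.card_fin]
    have h10 : t * 2 ≤ t * (A.filter fun x => x.1 ∈ ({e} : Finset E)).card :=
      Nat.mul_le_mul_left _ h4
    omega
  have hrr : ∀ c, r (slc A c) = ρ := by
    intro c
    by_contra hcon
    have hlt : ∑ c, r (slc A c) < ∑ _c : Fin T, ρ := by
      apply sum_lt_sum
      · intro j _
        exact hle _
      · exact ⟨c, mem_univ c, lt_of_le_of_ne (hle _) hcon⟩
    rw [sum_const, card_univ, Fintype.card_fin, smul_eq_mul] at hlt
    omega
  have hcc : ∀ c, (slc A c).card = ρ := by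
    have h0 : ∀ c, ρ ≤ (slc A c).card := fun c => by
      rw [← hrr c]
      exact hr.le_card _
    intro c
    by_contra hcon
    have hlt : ∑ _c : Fin T, ρ < ∑ c, (slc A c).card := by
      apply sum_lt_sum
      · intro j _
        exact h0 j
      · exact ⟨c, mem_univ c, lt_of_le_of_ne (h0 c) (Ne.symm hcon)⟩
    rw [sum_const, card_univ, Fintype.card_fin, smul_eq_mul, sum_card_slc] at hlt
    omega
  refine ⟨fun c => slc A c, fun c => ⟨hcc c, hrr c⟩, ?_, ?_, ?_⟩
  · intro i j hij
    rw [disjoint_left]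
    intro e h1 h2
    rw [mem_slc] at h1 h2
    exact hij (huniq e i j h1 h2)
  · intro e he
    obtain ⟨c, hc⟩ := mem_un.1 he
    rw [mem_slc] at hc
    obtain ⟨i, -, hi⟩ := mem_biUnion.1 (hA hc)
    exact mem_un.2 ⟨_, (hB'mem _ _).1 hi⟩
  · intro Y hY
    have h1 : ((un fun c => slc A c).filter fun e => p e ∈ Y).card ≤
        (A.filter fun x => x.1 ∈ S Y).card := by
      have h2 : ((un fun c => slc A c).filter fun e => p e ∈ Y) ⊆
          (A.filter fun x => x.1 ∈ S Y).image Prod.fst := by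
        intro e he
        rw [mem_filter] at he
        obtain ⟨c, hc⟩ := mem_un.1 he.1
        rw [mem_slc] at hc
        exact mem_image.2 ⟨(e, c), mem_filter.2 ⟨hc, (hSmem _ _).2 he.2⟩, rfl⟩
      exact (card_le_card h2).trans card_image_le
    by_cases hS : (S Y).Nonempty
    · have h3 := hAW (S Y) ((hF _).2 ⟨Or.inr (Or.inr ⟨Y, hY, rfl⟩), hS⟩)
      have h4 : ((univ.biUnion B').filter fun x => x.1 ∈ S Y).card ≤
          T * ((un B).filter fun e => p e ∈ Y).card := by
        have h5 : ((univ.biUnion B').filter fun x => x.1 ∈ S Y) ⊆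
            ((un B).filter fun e => p e ∈ Y) ×ˢ (univ : Finset (Fin T)) := by
          intro x hx
          rw [mem_filter] at hx
          obtain ⟨i, -, hi⟩ := mem_biUnion.1 hx.1
          rw [mem_product, mem_filter]
          exact ⟨⟨mem_un.2 ⟨_, (hB'mem _ _).1 hi⟩, (hSmem _ _).1 hx.2⟩, mem_univ _⟩
        have h6 := card_le_card h5
        rw [card_product, card_univ, Fintype.card_fin, mul_comm] at h6
        exact h6
      have h7 := Nat.mul_le_mul_left t h1
      omega
    · rw [not_nonempty_iff_eq_empty] at hS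
      rw [hS] at h1
      have h8 : (A.filter fun x => x.1 ∈ (∅ : Finset E)).card = 0 := by simp
      rw [h8] at h1
      rw [Nat.le_zero.1 h1, mul_zero]
      exact Nat.zero_le _

variable {V E : Type} [Fintype V] [DecidableEq V] [Fintype E] [DecidableEq E] (a b : E → V)

/-- (E): `T` of `t` disjoint trees -/
theorem round_trees {t T : ℕ} (hT : T ≤ t) (ht : 0 < t) (B : Fin t → Finset E)
    (hB : Trees a b B) (p : E → V) (L : Finset (Finset V))
    (hlam : ∀ X ∈ L, ∀ Y ∈ L, X ⊆ Y ∨ Y ⊆ X ∨ Disjoint X Y) :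
    ∃ C : Fin T → Finset E, Trees a b C ∧ un C ⊆ un B ∧ ∀ Y ∈ L,
      t * ((un C).filter fun e => p e ∈ Y).card ≤
        T * ((un B).filter fun e => p e ∈ Y).card + (t - 1) := by
  have hc0 := (hB.1 ⟨0, ht⟩).2
  have hle : ∀ J, rk a b J ≤ Fintype.card V - 1 := by
    intro J
    have h1 : 0 < Fintype.card V := by omega
    have h2 := rk_add_image_le a b (F := J) (fun _ => ()) (fun _ _ => rfl)
    have h3 : 0 < ((univ : Finset V).image fun _ => ()).card := by
      rw [card_pos]
      haveI : Nonempty V := Fintype.card_pos_iff.1 h1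
      exact univ_nonempty.image _
    omega
  have hB2 : ∀ i, (B i).card = Fintype.card V - 1 ∧ rk a b (B i) = Fintype.card V - 1 := by
    intro i
    have h1 := (hB.1 i).2
    have h2 := card_le_of_conn a b (hB.1 i).1
    rw [card_univ] at h2
    have h3 := hle (B i)
    exact ⟨by omega, by omega⟩
  obtain ⟨C, h1, h2, h3, h4⟩ := round_rk (rk_rk a b) (Fintype.card V - 1) hT ht B hB2 hB.2 hle
    p L hlam
  refine ⟨C, ⟨fun i => ⟨?_, ?_⟩, h2⟩, h3, h4⟩
  · apply conn_of_card_le a b
    · intro e _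
      rw [mem_ins]
      exact ⟨mem_univ _, mem_univ _⟩
    · rw [card_univ, (h1 i).2]
      omega
  · rw [(h1 i).1]
    omega

end Pool.Agent.Lib.MP_21a058_co.Every
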