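import Pool.Agent.Lib.MP_21a058_co.Every.Tails
import Pool.Agent.Lib.MP_21a058_co.Every.RoundT
import Pool.Agent.Lib.MP_21a058_co.Every.Groups

/-! (F2) The start: `T = s + j` trees chosen from `t = T + ε` trees, proportionally on the
laminar family of the tight sets of the rest. -/

namespace Pool.Agent.Lib.MP_21a058_co.Every

open Finset
open Pool.Agent.Lib.MP_21a058_co.P

/-- the numbers of the start -/
theorem start_num {t T ε u q m dR dH iH inH inW outW iW outH x : ℕ}
    (ht : t = T + ε) (hTε : ε ≤ T)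
    (hin : inW ≤ inH) (hD : inH + iH ≤ t * x) (hdH : dH = inH + outH)
    (hi : iH + t ≤ t * x)
    (hround : t * (iW + outW) ≤ T * (iH + outH) + (t - 1)) (ht0 : 0 < t)
    (hcut : 2 * m ≤ dR + dH) (hu : u ≤ dR)
    (hq : T * q + ε * q + ε * t ≤ T * u + 2 * ε * m) :
    q + T + iW + (inW + outW) ≤ dR + dH + T * x := by
  by_contra hcon
  push Not at hcon
  obtain ⟨t', rfl⟩ : ∃ t', t = t' + 1 := ⟨t - 1, by omega⟩
  have h0 : t' + 1 - 1 = t' := by omega
  rw [h0] at hround
  clear h0
  subst hdH
  zify at *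
  have e1 : (t' + 1 : ℤ) * (inW) ≤ (t' + 1) * inH := by
    apply mul_le_mul_of_nonneg_left hin; positivity
  have e2 : (T : ℤ) * u ≤ T * dR := mul_le_mul_of_nonneg_left hu (by positivity)
  have e3 : (ε : ℤ) * (2 * m) ≤ ε * (dR + (inH + outH)) :=
    mul_le_mul_of_nonneg_left hcut (by positivity)
  have e4 : (0 : ℤ) ≤ (T - ε) * ((t' + 1) * x - (t' + 1) - iH) :=
    mul_nonneg (by linarith) (by linarith)
  have e5 : (ε : ℤ) * (inH + iH) ≤ ε * ((t' + 1) * x) :=
    mul_le_mul_of_nonneg_left hD (by positivity)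
  have e6 : (t' + 1 : ℤ) * (dR + (inH + outH) + T * x) + (t' + 1) ≤
      (t' + 1) * (q + T + iW + (inW + outW)) := by
    have : (dR : ℤ) + (inH + outH) + T * x + 1 ≤ q + T + iW + (inW + outW) := by linarith
    have h := mul_le_mul_of_nonneg_left this (show (0 : ℤ) ≤ t' + 1 by positivity)
    linarith
  have ht' : (t' : ℤ) + 1 = T + ε := ht
  have e7 : (t' + 1 : ℤ) * q = T * q + ε * q := by rw [ht']; ring
  have e8 : (t' + 1 : ℤ) * (dR + (inH + outH)) =
      T * (dR + (inH + outH)) + ε * (dR + (inH + outH)) := by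
    rw [ht']; ring
  nlinarith [e1, e2, e3, e4, e5, e6, e7, e8, hround, hq, ht']

variable {V E : Type} [Fintype V] [DecidableEq V] [Fintype E] [DecidableEq E] (a b : E → V)

/-- no cycle inside `X` -/
private theorem start_ins_le {T : Finset E} (h : Tree a b T) {X : Finset V}
    (hX : X.Nonempty) : (T ∩ ins a b X).card + 1 ≤ X.card := by
  classical
  obtain ⟨x0, hx0⟩ := hX
  have h1 : Fintype.card V ≤ rk a b T + 1 := by
    have := card_le_of_conn a b h.1
    rwa [card_univ] at this
  have h2 : T.card ≤ rk a b T := by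
    have := h.2
    omega
  have h3 : rk a b T ≤ rk a b (T ∩ ins a b X) + (T \ ins a b X).card := by
    apply rk_le_add_card
    intro e he
    rw [mem_union, mem_inter, mem_sdiff]
    by_cases h4 : e ∈ ins a b X
    · exact Or.inl ⟨he, h4⟩
    · exact Or.inr ⟨he, h4⟩
  have h4 : (T ∩ ins a b X).card + (T \ ins a b X).card = T.card := by
    rw [← card_union_of_disjoint]
    · congr 1
      ext e
      simp only [mem_union, mem_inter, mem_sdiff]
      tauto
    · rw [disjoint_left]
      intro e h5 h6
      exact (mem_sdiff.1 h6).2 (mem_inter.1 h5).2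
  have h5 : rk a b (T ∩ ins a b X) +
      (univ.image (fun v => if v ∈ X then x0 else v)).card ≤ Fintype.card V := by
    apply rk_add_image_le
    intro e he
    obtain ⟨h6, h7⟩ := (mem_ins a b).1 (mem_inter.1 he).2
    simp only [h6, h7, if_true]
  have h6 : (insert x0 Xᶜ).card ≤ (univ.image (fun v => if v ∈ X then x0 else v)).card := by
    apply card_le_card
    intro v hv
    rw [mem_image]
    rcases mem_insert.1 hv with rfl | hv
    · exact ⟨v, mem_univ _, by simp [hx0]⟩
    · exact ⟨v, mem_univ _, by simp [mem_compl.1 hv]⟩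
  rw [card_insert_of_notMem (fun h => (mem_compl.1 h) hx0), card_compl] at h6
  have h7 : X.card ≤ Fintype.card V := card_le_univ X
  omega

/-- no cycle inside `X`, for all the trees -/
theorem start_ins {t : ℕ} (B : Fin t → Finset E) (hB : Trees a b B) {X : Finset V}
    (hX : X.Nonempty) : (un B ∩ ins a b X).card + t ≤ t * X.card := by
  have h1 : (un B ∩ ins a b X).card ≤ ∑ i, (B i ∩ ins a b X).card := by
    unfold un
    rw [biUnion_inter]
    exact card_biUnion_le
  have h2 : ∑ i, ((B i ∩ ins a b X).card + 1) ≤ ∑ _i : Fin t, X.card :=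
    sum_le_sum fun i _ => start_ins_le a b (hB.1 i) hX
  rw [sum_add_distrib, sum_const, sum_const, card_univ, Fintype.card_fin, smul_eq_mul,
    smul_eq_mul, mul_one] at h2
  omega

/-- the edges with tail in `X` -/
theorem start_tail (p : E → V) (F : Finset E) (hp : ∀ e ∈ F, p e = a e ∨ p e = b e)
    (X : Finset V) : (F.filter fun e => p e ∈ X).card =
      (F ∩ ins a b X).card + ((F ∩ cut a b X).filter fun e => p e ∈ X).card := by
  rw [← card_union_of_disjoint]
  · congr 1
    ext e
    simp only [mem_filter, mem_union, mem_inter, mem_ins, mem_cut]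
    constructor
    · rintro ⟨h1, h2⟩
      rcases hp e h1 with h3 | h3
      · rw [h3] at h2
        by_cases hb : b e ∈ X
        · exact Or.inl ⟨h1, h2, hb⟩
        · exact Or.inr ⟨⟨h1, fun h => hb (h.1 h2)⟩, h3 ▸ h2⟩
      · rw [h3] at h2
        by_cases ha : a e ∈ X
        · exact Or.inl ⟨h1, ha, h2⟩
        · exact Or.inr ⟨⟨h1, fun h => ha (h.2 h2)⟩, h3 ▸ h2⟩
    · rintro (⟨h1, h2, h3⟩ | ⟨⟨h1, -⟩, h2⟩)
      · refine ⟨h1, ?_⟩
        rcases hp e h1 with h4 | h4
        · rw [h4]; exact h2
        · rw [h4]; exact h3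
      · exact ⟨h1, h2⟩
  · rw [Finset.disjoint_left]
    intro e he he'
    simp only [mem_filter, mem_inter, mem_ins, mem_cut] at he he'
    exact he'.1.2 ⟨fun _ => he.2.2, fun _ => he.2.1⟩

theorem start (hV : Nonempty V) (r : V) {s j c u d ε x : ℕ} (hj : 0 < j)
    (hcut : ∀ Y : Finset V, Y.Nonempty → Y ≠ univ →
      2 * ((s + j + ε) + u) ≤ (cut a b Y).card)
    (h0 : 2 * c + j = u + d) (h1 : 2 * c ≤ u) (h2 : 2 * (u + d) ≤ 3 * u + 1)
    (h3 : (s + j) * d ≤ ε * x) (h4 : x + (u + d) ≤ (s + j + ε) + 2 * u) (h5 : ε ≤ s + j) :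
    ∃ B : Fin (s + j) → Finset E, Trees a b B ∧
      (∀ Y : Finset V, Y.Nonempty → Y ≠ univ → 2 * c ≤ (cut a b Y \ un B).card) ∧
      ∀ X : Finset V, X.Nonempty → r ∉ X →
        2 * c + j + (un B ∩ ins a b X).card ≤
          (cut a b X \ un B).card + (s + j) * (X.card - 1) := by
  classical
  obtain ⟨B, hB, hu, hlam⟩ := exists_groups a b hV r (t := s + j + ε) (u := u) (q := u + d)
    (by omega) hcut h2
  obtain ⟨p, hp, hpX⟩ := tails a b hV B hB
  obtain ⟨C, hC, hCB, hround⟩ := round_trees a b (T := s + j) (t := s + j + ε) (by omega)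
    (by omega) B hB p (univ.filter fun Y => r ∉ Y ∧ (cut a b Y \ un B).card < u + d)
    (by
      intro X hX Y hY
      simp only [mem_filter, mem_univ, true_and] at hX hY
      exact hlam X Y hX.1 hY.1 hX.2 hY.2)
  have hmono : ∀ X : Finset V, (cut a b X \ un B).card ≤ (cut a b X \ un C).card :=
    fun X => card_le_card (sdiff_subset_sdiff (Subset.refl _) hCB)
  refine ⟨C, hC, fun Y hY1 hY2 => (h1.trans (hu Y hY1 hY2)).trans (hmono Y), ?_⟩
  intro X hX hr
  have hXu : X ≠ univ := fun h => hr (h ▸ mem_univ r)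
  have hx1 : 1 ≤ X.card := hX.card_pos
  have hC1 := start_ins a b C hC hX
  have hmul : (s + j) * (X.card - 1) + (s + j) = (s + j) * X.card := by
    obtain ⟨y, hy⟩ : ∃ y, X.card = y + 1 := ⟨X.card - 1, by omega⟩
    rw [hy]; simp; ring
  by_cases hq : (cut a b X \ un B).card < u + d
  · have hr1 := hround X (by simp [hr, hq])
    rw [start_tail a b p (un C) (fun e he => hp e (hCB he)) X,
      start_tail a b p (un B) hp X] at hr1
    have hB1 := start_ins a b B hB hX
    have hD := hpX X
    have hdec : ∀ F : Finset E, (F ∩ cut a b X).card =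
        ((F ∩ cut a b X).filter fun e => p e ∉ X).card +
        ((F ∩ cut a b X).filter fun e => p e ∈ X).card := by
      intro F
      rw [add_comm]
      exact (card_filter_add_card_filter_not (s := F ∩ cut a b X) (fun e => p e ∈ X)).symm
    have hin : ((un C ∩ cut a b X).filter fun e => p e ∉ X).card ≤
        ((un B ∩ cut a b X).filter fun e => p e ∉ X).card := by
      apply card_le_card
      apply filter_subset_filter
      exact inter_subset_inter_right hCB
    have hsum : ∀ F : Finset E, (cut a b X \ F).card + (F ∩ cut a b X).card =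
        (cut a b X).card := by
      intro F
      rw [inter_comm]
      exact card_sdiff_add_card_inter _ _
    have hcX := hcut X hX hXu
    rw [← hsum (un B)] at hcX
    have hqn : (s + j) * (u + d) + ε * (u + d) + ε * (s + j + ε) ≤
        (s + j) * u + 2 * ε * (s + j + ε + u) := by
      have h6 := Nat.mul_le_mul_left ε h4
      nlinarith
    have key := start_num (t := s + j + ε) (T := s + j) (ε := ε) (u := u) (q := u + d)
      (m := s + j + ε + u) (x := X.card) rfl h5 hin hD (hdec (un B)) hB1 hr1 (by omega)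
      hcX (hu X hX hXu) hqn
    rw [← hdec (un C)] at key
    have hs1 := hsum (un B)
    have hs2 := hsum (un C)
    omega
  · have := hmono X
    omega

end Pool.Agent.Lib.MP_21a058_co.Every
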