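import Pool.Agent.Lib.MP_21a058_co.Every.Defs
import Pool.Agent.Lib.MP_21a058_co.P.Glue

/-!
MP_21a058_co: the edges of `t` disjoint spanning trees have tails (the ends nearer to the root), so that at most
`t * |Y|` edges have their head in `Y`.
-/

set_option autoImplicit false

namespace Pool.Agent.Lib.MP_21a058_co.Every

open Finset Pool.Agent.Lib.MP_21a058_co.P

variable {V E : Type} [Fintype V] [DecidableEq V] [Fintype E] [DecidableEq E] (a b : E → V)

/-- tails of one spanning tree: the edges entering `Y` and the edges inside `Y` have different heads in `Y` -/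
theorem tail_one {T : Finset E} (hT : ConnOn a b T univ) (hc : T.card + 1 = Fintype.card V)
    (r : V) : ∃ p : E → V, (∀ e ∈ T, p e = a e ∨ p e = b e) ∧ (∀ e ∈ T, a e ≠ b e) ∧
      ∀ Y : Finset V, ((T ∩ cut a b Y).filter fun e => p e ∉ Y).card +
        (T ∩ ins a b Y).card ≤ Y.card := by
  obtain ⟨T', own, h1, h2, h3, -, h5, h6⟩ := par a b T r (fun v =>
    Relation.ReflTransGen.mono (fun _ _ => PJoin.mono inter_subset_left) _ _
      (hT.walk (mem_univ r) (mem_univ v)))
  have hTT : T' = T := eq_of_subset_of_card_le h1 (by omega)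
  subst hTT
  refine ⟨own, h3, h2, fun Y => ?_⟩
  have hdisj : Disjoint ((T' ∩ cut a b Y).filter fun e => own e ∉ Y) (T' ∩ ins a b Y) := by
    rw [disjoint_left]
    intro e he he'
    have k1 := (mem_cut a b).1 (mem_inter.1 (mem_filter.1 he).1).2
    have k2 := (mem_ins a b).1 (mem_inter.1 he').2
    exact k1 ⟨fun _ => k2.2, fun _ => k2.1⟩
  rw [← card_union_of_disjoint hdisj]
  have hh : ∀ e ∈ T', ∀ v, (if own e = a e then b e else a e) = v →
      (a e = v ∨ b e = v) ∧ own e ≠ v := by
    intro e he v hv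
    by_cases k : own e = a e
    · rw [if_pos k] at hv
      exact ⟨Or.inr hv, fun hcon => h2 e he (by rw [← k, hcon, hv])⟩
    · rw [if_neg k] at hv
      exact ⟨Or.inl hv, fun hcon => k (by rw [hcon, hv])⟩
  refine card_le_card_of_injOn (fun e => if own e = a e then b e else a e) ?_ ?_
  · intro e he
    have he1 := mem_union.1 (mem_coe.1 he)
    rcases he1 with he1 | he1
    · obtain ⟨k1, k2⟩ := mem_filter.1 he1
      obtain ⟨k3, k4⟩ := mem_inter.1 k1
      have k5 := (mem_cut a b).1 k4
      change (if own e = a e then b e else a e) ∈ (Y : Set V)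
      rw [mem_coe]
      by_cases k : own e = a e
      · rw [if_pos k]
        rw [k] at k2
        by_contra hcon
        exact k5 ⟨fun h => absurd h k2, fun h => absurd h hcon⟩
      · rw [if_neg k]
        have k6 : own e = b e := (h3 e k3).resolve_left k
        rw [k6] at k2
        by_contra hcon
        exact k5 ⟨fun h => absurd h hcon, fun h => absurd h k2⟩
    · obtain ⟨k3, k4⟩ := mem_inter.1 he1
      have k5 := (mem_ins a b).1 k4
      change (if own e = a e then b e else a e) ∈ (Y : Set V)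
      rw [mem_coe]
      by_cases k : own e = a e
      · rw [if_pos k]
        exact k5.2
      · rw [if_neg k]
        exact k5.1
  · intro e he e' he' hee
    have hin : ∀ f, f ∈ ((((T' ∩ cut a b Y).filter fun e => own e ∉ Y) ∪
        (T' ∩ ins a b Y) : Finset E) : Set E) → f ∈ T' := by
      intro f hf
      rcases mem_union.1 (mem_coe.1 hf) with hf | hf
      · exact (mem_inter.1 (mem_filter.1 hf).1).1
      · exact (mem_inter.1 hf).1
    have k1 := hin e he
    have k2 := hin e' he'
    have k3 := h5 (if own e = a e then b e else a e)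
    rw [card_le_one] at k3
    exact k3 e (mem_filter.2 ⟨k1, hh e k1 _ rfl⟩) e' (mem_filter.2 ⟨k2, hh e' k2 _ hee.symm⟩)

/-- tails of `t` disjoint spanning trees -/
theorem tails_aux {t : ℕ} (T : Fin t → Finset E) (hd : ∀ i j, i ≠ j → Disjoint (T i) (T j))
    (hT : ∀ i, ConnOn a b (T i) univ) (hc : ∀ i, (T i).card + 1 = Fintype.card V) (r : V) :
    ∃ p : E → V, (∀ e, p e = a e ∨ p e = b e) ∧
      ∀ Y : Finset V, ((univ.biUnion T ∩ cut a b Y).filter fun e => p e ∉ Y).card +
        (univ.biUnion T ∩ ins a b Y).card ≤ t * Y.card := by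
  classical
  choose q hq1 _ hq2 using fun i => tail_one a b (hT i) (hc i) r
  obtain ⟨p, hp⟩ : ∃ p : E → V, p = fun e => if h : ∃ i, e ∈ T i then q h.choose e else a e :=
    ⟨_, rfl⟩
  have hpi : ∀ i, ∀ e ∈ T i, p e = q i e := by
    intro i e he
    have hex : ∃ i, e ∈ T i := ⟨i, he⟩
    have h1 : hex.choose = i := by
      by_contra hne
      exact disjoint_left.1 (hd _ _ hne) hex.choose_spec he
    rw [hp]
    change (if h : ∃ i, e ∈ T i then q h.choose e else a e) = q i e
    rw [dif_pos hex, h1]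
  refine ⟨p, fun e => ?_, fun Y => ?_⟩
  · by_cases hex : ∃ i, e ∈ T i
    · obtain ⟨i, hi⟩ := hex
      rw [hpi i e hi]
      exact hq1 i e hi
    · left
      rw [hp]
      change (if h : ∃ i, e ∈ T i then q h.choose e else a e) = a e
      rw [dif_neg hex]
  · have e1 : ((univ.biUnion T ∩ cut a b Y).filter fun e => p e ∉ Y) ⊆
        univ.biUnion fun i => (T i ∩ cut a b Y).filter fun e => q i e ∉ Y := by
      intro e he
      obtain ⟨k1, k2⟩ := mem_filter.1 he
      obtain ⟨k3, k4⟩ := mem_inter.1 k1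
      obtain ⟨i, -, hi⟩ := mem_biUnion.1 k3
      refine mem_biUnion.2 ⟨i, mem_univ i, mem_filter.2 ⟨mem_inter.2 ⟨hi, k4⟩, ?_⟩⟩
      rw [← hpi i e hi]
      exact k2
    have e2 : (univ.biUnion T ∩ ins a b Y) ⊆ univ.biUnion fun i => T i ∩ ins a b Y := by
      intro e he
      obtain ⟨k3, k4⟩ := mem_inter.1 he
      obtain ⟨i, -, hi⟩ := mem_biUnion.1 k3
      exact mem_biUnion.2 ⟨i, mem_univ i, mem_inter.2 ⟨hi, k4⟩⟩
    have e3 := (card_le_card e1).trans card_biUnion_le
    have e4 := (card_le_card e2).trans card_biUnion_le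
    have e5 : (∑ i : Fin t, ((T i ∩ cut a b Y).filter fun e => q i e ∉ Y).card) +
        ∑ i : Fin t, (T i ∩ ins a b Y).card ≤ t * Y.card := by
      rw [← sum_add_distrib]
      calc ∑ i : Fin t, (((T i ∩ cut a b Y).filter fun e => q i e ∉ Y).card +
            (T i ∩ ins a b Y).card) ≤ ∑ _i : Fin t, Y.card := sum_le_sum fun i _ => hq2 i Y
        _ = t * Y.card := by rw [sum_const, card_univ, Fintype.card_fin, smul_eq_mul]
    omega

/-- **tails of `t` disjoint spanning trees** -/
theorem tails (hV : Nonempty V) {t : ℕ} (B : Fin t → Finset E) (hB : Trees a b B) :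
    ∃ p : E → V, (∀ e ∈ un B, p e = a e ∨ p e = b e) ∧ ∀ X : Finset V,
      ((un B ∩ cut a b X).filter fun e => p e ∉ X).card + (un B ∩ ins a b X).card ≤
        t * X.card := by
  obtain ⟨r⟩ := hV
  obtain ⟨p, h1, h2⟩ := tails_aux a b B hB.2 (fun i => (hB.1 i).1) (fun i => (hB.1 i).2) r
  exact ⟨p, fun e _ => h1 e, h2⟩

end Pool.Agent.Lib.MP_21a058_co.Every
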