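import Pool.Agent.Lib.MP_21a058_co.P.Defs

/-! Every tuple: counting the edges between the four parts made by two vertex sets. -/

namespace Pool.Agent.Lib.MP_21a058_co.Every

open Finset
open Pool.Agent.Lib.MP_21a058_co.P

set_option linter.unusedSectionVars false

variable {V E : Type} [Fintype V] [DecidableEq V] [Fintype E] [DecidableEq E] (a b : E → V)

/-- The crossing edges of `F` as a filter. -/
theorem inter_cut_eq (F : Finset E) (X : Finset V) :
    F ∩ cut a b X = F.filter fun e => ¬ (a e ∈ X ↔ b e ∈ X) := by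
  ext e
  rw [mem_inter, mem_filter, mem_cut]

/-- The cuts of `A` and of `A ∪ X`, for `A` outside `X`. -/
theorem cnt_sum (F : Finset E) (A X : Finset V) (h : Disjoint A X) :
    (F ∩ cut a b A).card + (F ∩ cut a b (A ∪ X)).card =
      2 * (F.filter fun e => (a e ∈ A ∧ b e ∉ A ∪ X) ∨ (b e ∈ A ∧ a e ∉ A ∪ X)).card +
        (F ∩ cut a b X).card := by
  have hd : ∀ v, v ∈ A → v ∉ X := fun v hv => disjoint_left.1 h hv
  rw [inter_cut_eq, inter_cut_eq, inter_cut_eq, card_filter, card_filter, card_filter,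
    card_filter, mul_sum, ← sum_add_distrib, ← sum_add_distrib]
  apply sum_congr rfl
  intro e _
  have h1 := hd (a e)
  have h2 := hd (b e)
  simp only [mem_union]
  by_cases p1 : a e ∈ A <;> by_cases p2 : b e ∈ A <;> by_cases p3 : a e ∈ X <;>
    by_cases p4 : b e ∈ X <;> simp_all

/-- The cuts of the two halves of `X`. -/
theorem cnt_split (F : Finset E) (X Y : Finset V) :
    (F ∩ cut a b (X ∩ Y)).card + (F ∩ cut a b (X \ Y)).card =
      2 * (F.filter fun e => (a e ∈ X ∩ Y ∧ b e ∈ X \ Y) ∨ (b e ∈ X ∩ Y ∧ a e ∈ X \ Y)).card +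
        (F ∩ cut a b X).card := by
  rw [inter_cut_eq, inter_cut_eq, inter_cut_eq, card_filter, card_filter, card_filter,
    card_filter, mul_sum, ← sum_add_distrib, ← sum_add_distrib]
  apply sum_congr rfl
  intro e _
  simp only [mem_inter, mem_sdiff]
  by_cases p1 : a e ∈ X <;> by_cases p2 : b e ∈ X <;> by_cases p3 : a e ∈ Y <;>
    by_cases p4 : b e ∈ Y <;> simp_all

/-- Three disjoint sets of edges crossing `Y`: between the halves of `X`, from `Y \ X` to the
outside of `X ∪ Y`, from `X ∩ Y` to the outside of `X ∪ Y`. -/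
theorem cnt_ge (F : Finset E) (X Y : Finset V) :
    (F.filter fun e => (a e ∈ X ∩ Y ∧ b e ∈ X \ Y) ∨ (b e ∈ X ∩ Y ∧ a e ∈ X \ Y)).card +
      (F.filter fun e => (a e ∈ Y \ X ∧ b e ∉ (Y \ X) ∪ X) ∨
        (b e ∈ Y \ X ∧ a e ∉ (Y \ X) ∪ X)).card +
      (F.filter fun e => (a e ∈ X ∩ Y ∧ b e ∉ X ∪ Y) ∨ (b e ∈ X ∩ Y ∧ a e ∉ X ∪ Y)).card ≤
      (F ∩ cut a b Y).card := by
  rw [inter_cut_eq, card_filter, card_filter, card_filter, card_filter, ← sum_add_distrib,
    ← sum_add_distrib]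
  apply sum_le_sum
  intro e _
  simp only [mem_inter, mem_sdiff, mem_union]
  by_cases p1 : a e ∈ X <;> by_cases p2 : b e ∈ X <;> by_cases p3 : a e ∈ Y <;>
    by_cases p4 : b e ∈ Y <;> simp_all

/-- The cut of `Y` in full: also the edges from `Y \ X` to `X \ Y`. -/
theorem cnt_eq (F : Finset E) (X Y : Finset V) :
    (F ∩ cut a b Y).card =
    (F.filter fun e => (a e ∈ X ∩ Y ∧ b e ∈ X \ Y) ∨ (b e ∈ X ∩ Y ∧ a e ∈ X \ Y)).card +
      (F.filter fun e => (a e ∈ Y \ X ∧ b e ∉ (Y \ X) ∪ X) ∨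
        (b e ∈ Y \ X ∧ a e ∉ (Y \ X) ∪ X)).card +
      (F.filter fun e => (a e ∈ X ∩ Y ∧ b e ∉ X ∪ Y) ∨ (b e ∈ X ∩ Y ∧ a e ∉ X ∪ Y)).card +
      (F.filter fun e => (a e ∈ Y \ X ∧ b e ∈ X \ Y) ∨ (b e ∈ Y \ X ∧ a e ∈ X \ Y)).card := by
  rw [inter_cut_eq, card_filter, card_filter, card_filter, card_filter, card_filter,
    ← sum_add_distrib, ← sum_add_distrib, ← sum_add_distrib]
  apply sum_congr rfl
  intro e _
  simp only [mem_inter, mem_sdiff, mem_union]
  by_cases p1 : a e ∈ X <;> by_cases p2 : b e ∈ X <;> by_cases p3 : a e ∈ Y <;>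
    by_cases p4 : b e ∈ Y <;> simp_all

end Pool.Agent.Lib.MP_21a058_co.Every
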