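import Pool.Agent.Lib.MP_21a058_co.P.Glue
import Pool.Agent.Lib.MP_21a058_co.Every.Defs

/-!
MP_21a058_co, every tuple (proof of helper49), letter (A): **the exchange of one edge between two
disjoint spanning trees**, one of which crosses `X` once and the other of which is not connected
inside `X`.
-/

set_option autoImplicit false

namespace Pool.Agent.Lib.MP_21a058_co.Every

open Finset Pool.Agent.Lib.MP_21a058_co.P

variable {V E : Type*} [DecidableEq V] [Fintype E] [DecidableEq E] {a b : E → V}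

/-- the two ends of an edge of a cut -/
theorem ends_of_cut {X : Finset V} {e : E} (h : e ∈ cut a b X) :
    ∃ x y, x ∈ X ∧ y ∉ X ∧ ((a e = x ∧ b e = y) ∨ (a e = y ∧ b e = x)) := by
  rw [mem_cut] at h
  by_cases h1 : a e ∈ X
  · exact ⟨a e, b e, h1, fun h2 => h ⟨fun _ => h2, fun _ => h1⟩, Or.inl ⟨rfl, rfl⟩⟩
  · have h2 : b e ∈ X := by
      by_contra h3
      exact h ⟨fun h4 => absurd h4 h1, fun h4 => absurd h4 h3⟩
    exact ⟨b e, a e, h2, h1, Or.inr ⟨rfl, rfl⟩⟩

/-- an edge with ends `x`, `y` crosses `Z` iff `Z` separates `x` from `y` -/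
theorem mem_cut_of_ends {Z : Finset V} {e : E} {x y : V}
    (h : (a e = x ∧ b e = y) ∨ (a e = y ∧ b e = x)) : e ∈ cut a b Z ↔ ¬ (x ∈ Z ↔ y ∈ Z) := by
  rw [mem_cut]
  rcases h with ⟨h1, h2⟩ | ⟨h1, h2⟩
  · rw [h1, h2]
  · rw [h1, h2]
    tauto

/-- **the edge of a path**: a set of edges joining `C` to `x₀`, a set `D` between -/
theorem exists_path [Fintype V] {T P0 : Finset E} (hP0 : P0 ⊆ T) {C D : Finset V} {x0 : V}
    (hCD : C ⊆ D) (hx0 : x0 ∉ D)
    (hcon : ∀ Z : Finset V, C ⊆ Z → x0 ∉ Z → ∃ e ∈ P0, e ∈ cut a b Z)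
    (hfund : ∀ f ∈ P0, f ∈ cut a b D → ∃ Z : Finset V, f ∈ cut a b Z ∧
      (∀ h ∈ T, h ∈ cut a b Z → h = f) ∧ C ⊆ Z) :
    ∃ f ∈ P0, f ∈ cut a b D ∧ ∃ Z : Finset V, f ∈ cut a b Z ∧
      (∀ h ∈ T, h ∈ cut a b Z → h = f) ∧ C ⊆ Z ∧ x0 ∉ Z := by
  classical
  obtain ⟨P, hP, hmin⟩ := exists_min_image
    (P0.powerset.filter fun P => ∀ Z : Finset V, C ⊆ Z → x0 ∉ Z → ∃ e ∈ P, e ∈ cut a b Z)
    card ⟨P0, mem_filter.2 ⟨mem_powerset.2 (Subset.refl _), hcon⟩⟩
  rw [mem_filter, mem_powerset] at hP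
  obtain ⟨hPsub, hPcon⟩ := hP
  obtain ⟨f, hfP, hfD⟩ := hPcon D hCD hx0
  obtain ⟨Z2, hf2, h2, hC2⟩ := hfund f (hPsub hfP) hfD
  refine ⟨f, hPsub hfP, hfD, Z2, hf2, h2, hC2, fun hx2 => ?_⟩
  have hnot : ¬ ∀ Z : Finset V, C ⊆ Z → x0 ∉ Z → ∃ e ∈ P.erase f, e ∈ cut a b Z := by
    intro hh
    have h3 := hmin (P.erase f) (mem_filter.2 ⟨mem_powerset.2
      ((erase_subset _ _).trans hPsub), hh⟩)
    have h4 := card_erase_lt_of_mem hfP
    omega
  push Not at hnot
  obtain ⟨Z1, hC1, hx1, h1⟩ := hnot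
  have hf1 : f ∈ cut a b Z1 := by
    obtain ⟨e, heP, hec⟩ := hPcon Z1 hC1 hx1
    by_cases hef : e = f
    · rw [← hef]
      exact hec
    · exact absurd hec (h1 e (mem_erase.2 ⟨hef, heP⟩))
  obtain ⟨W, hW⟩ : ∃ W : Finset V, ∀ x, x ∈ W ↔ (x ∈ Z1 ↔ x ∈ Z2) :=
    ⟨univ.filter fun x => (x ∈ Z1 ↔ x ∈ Z2), fun x => by simp⟩
  obtain ⟨e, heP, hec⟩ := hPcon W (fun x hx => (hW x).2 ⟨fun _ => hC2 hx, fun _ => hC1 hx⟩)
    (fun hx => hx1 (((hW x0).1 hx).2 hx2))
  rw [mem_cut, hW, hW] at hec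
  by_cases hef : e = f
  · rw [hef] at hec
    rw [mem_cut] at hf1 hf2
    tauto
  · have h3 := h1 e (mem_erase.2 ⟨hef, heP⟩)
    have h4 : e ∉ cut a b Z2 := fun hh => hef (h2 e (hP0 (hPsub heP)) hh)
    rw [mem_cut, not_not] at h3 h4
    tauto

/-- **the swap**: the new edge crosses the fundamental cut of the old one -/
theorem swap [Fintype V] {T : Finset E} (hT : ConnOn a b T univ) {Z : Finset V} {f g : E}
    (hf : f ∈ cut a b Z) (h : ∀ h ∈ T, h ∈ cut a b Z → h = f) (hg : g ∈ cut a b Z) :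
    ConnOn a b (insert g (T.erase f)) univ := by
  classical
  intro Y _ hne hne'
  by_contra hcon
  push Not at hcon
  have hins : ∀ e : E, e ∈ ins a b (univ : Finset V) := fun e =>
    (mem_ins a b).2 ⟨mem_univ _, mem_univ _⟩
  have hY : ∀ e ∈ T, e ∈ cut a b Y → e = f := by
    intro e he hec
    by_contra hef
    exact hcon e (mem_insert_of_mem (mem_erase.2 ⟨hef, he⟩)) (hins e) hec
  have hgY : g ∉ cut a b Y := hcon g (mem_insert_self _ _) (hins g)
  obtain ⟨e0, he0, -, hec0⟩ := hT Y (subset_univ _) hne hne'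
  have hfY : f ∈ cut a b Y := by
    rw [← hY e0 he0 hec0]
    exact hec0
  obtain ⟨W, hW⟩ : ∃ W : Finset V, ∀ x, x ∈ W ↔ (x ∈ Z ↔ x ∈ Y) :=
    ⟨univ.filter fun x => (x ∈ Z ↔ x ∈ Y), fun x => by simp⟩
  have hWT : ∀ e ∈ T, e ∉ cut a b W := by
    intro e he hec
    rw [mem_cut, hW, hW] at hec
    by_cases hef : e = f
    · rw [hef] at hec
      rw [mem_cut] at hf hfY
      tauto
    · have h3 : e ∉ cut a b Z := fun hh => hef (h e he hh)
      have h4 : e ∉ cut a b Y := fun hh => hef (hY e he hh)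
      rw [mem_cut, not_not] at h3 h4
      tauto
  have hgW : g ∈ cut a b W := by
    rw [mem_cut, hW, hW]
    rw [mem_cut] at hg hgY
    tauto
  obtain ⟨x, y, hx, hy, -⟩ := ends_of_cut hgW
  obtain ⟨e, he, -, hec⟩ := hT W (subset_univ _) ⟨x, hx⟩ (fun hh => hy (hh ▸ mem_univ y))
  exact hWT e he hec

/-- a spanning tree has fundamental cuts -/
theorem fund [Fintype V] {T : Finset E} (hT : ConnOn a b T univ)
    (hc : T.card + 1 = Fintype.card V) {f : E} (hf : f ∈ T) :
    ∃ Z : Finset V, f ∈ cut a b Z ∧ ∀ h ∈ T, h ∈ cut a b Z → h = f := by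
  classical
  have hnot : ¬ ConnOn a b (T.erase f) univ := by
    intro hh
    have h0 : (T.erase f) ∩ ins a b (univ : Finset V) = T.erase f := by
      ext e
      simp [mem_ins]
    obtain ⟨T0, own, h1, -, -, -, -, h2⟩ := par_on a b univ (T.erase f)
      (fun e _ => ⟨mem_univ _, mem_univ _⟩) (a f) (mem_univ _) (fun v hv => by
        have := hh.walk (mem_univ (a f)) hv
        rw [h0] at this
        exact this)
    have h3 := card_le_card h1
    have h4 := card_erase_lt_of_mem hf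
    rw [card_univ] at h2
    omega
  unfold ConnOn at hnot
  push Not at hnot
  obtain ⟨Z, -, hne, hne', hZ⟩ := hnot
  have hins : ∀ e : E, e ∈ ins a b (univ : Finset V) := fun e =>
    (mem_ins a b).2 ⟨mem_univ _, mem_univ _⟩
  have key : ∀ h ∈ T, h ∈ cut a b Z → h = f := by
    intro h hh hhc
    by_contra hef
    exact hZ h (mem_erase.2 ⟨hef, hh⟩) (hins h) hhc
  obtain ⟨e, he, -, hec⟩ := hT Z (subset_univ _) hne hne'
  refine ⟨Z, ?_, key⟩
  rw [← key e he hec]
  exact hec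

/-- a connected set which crosses `X` at most once connects `X` -/
theorem conn_of_one {V E : Type*} [DecidableEq V] [Fintype V] [Fintype E] [DecidableEq E]
    {a b : E → V} {B : Finset E} (hB : ConnOn a b B univ) {X : Finset V} {e : E}
    (hone : ∀ h ∈ B, h ∈ cut a b X → h = e) : ConnOn a b B X := by
  classical
  intro Y hYX hne hne'
  by_contra hcon
  push Not at hcon
  have hins : ∀ e : E, e ∈ ins a b (univ : Finset V) := fun e =>
    (mem_ins a b).2 ⟨mem_univ _, mem_univ _⟩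
  have hY : Y ≠ univ := by
    intro hh
    exact hne' (Subset.antisymm hYX (by rw [hh]; exact subset_univ _))
  -- an edge leaving a part of `X` with no inner edge leaving it crosses `X`
  have key : ∀ Y' ⊆ X, Y'.Nonempty → Y' ≠ univ → (∀ e ∈ B, e ∈ ins a b X → e ∉ cut a b Y') →
      ∃ h ∈ B, h ∈ cut a b X ∧ (a h ∈ Y' ∨ b h ∈ Y') := by
    intro Y' h1 h2 h3 h4
    obtain ⟨h, hh, -, hhc⟩ := hB Y' (subset_univ _) h2 h3
    have h5 : a h ∈ Y' ∨ b h ∈ Y' := by
      rw [mem_cut] at hhc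
      tauto
    refine ⟨h, hh, ?_, h5⟩
    by_contra h6
    refine h4 h hh ?_ hhc
    rw [mem_cut, not_not] at h6
    rw [mem_ins]
    rcases h5 with h5 | h5
    · exact ⟨h1 h5, h6.1 (h1 h5)⟩
    · exact ⟨h6.2 (h1 h5), h1 h5⟩
  obtain ⟨h1, hh1, hc1, hs1⟩ := key Y hYX hne hY hcon
  have hne2 : (X \ Y).Nonempty := by
    rw [sdiff_nonempty]
    exact fun hh => hne' (Subset.antisymm hYX hh)
  have hY2 : X \ Y ≠ univ := by
    intro hh
    obtain ⟨y, hy⟩ := hne
    have h5 := mem_univ y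
    rw [← hh] at h5
    exact (mem_sdiff.1 h5).2 hy
  obtain ⟨h2, hh2, hc2, hs2⟩ := key (X \ Y) sdiff_subset hne2 hY2 (by
    intro e he hi hc
    refine hcon e he hi ?_
    rw [mem_ins] at hi
    rw [mem_cut, mem_sdiff, mem_sdiff] at hc
    rw [mem_cut]
    tauto)
  have e1 := hone h1 hh1 hc1
  have e2 := hone h2 hh2 hc2
  rw [e1] at hc1 hs1
  rw [e2] at hs2
  rw [mem_sdiff, mem_sdiff] at hs2
  rw [mem_cut] at hc1
  have hYX1 : a e ∈ Y → a e ∈ X := fun h => hYX h
  have hYX2 : b e ∈ Y → b e ∈ X := fun h => hYX h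
  tauto

/-- **the exchange**, general form: `B` crosses `X` once, `T` does not connect `X` -/
theorem exch {V E : Type*} [DecidableEq V] [Fintype V] [Fintype E] [DecidableEq E]
    {a b : E → V} {T B : Finset E} {X : Finset V} (hdis : Disjoint T B)
    (hT : ConnOn a b T univ) (hTc : T.card + 1 = Fintype.card V)
    (hB : ConnOn a b B univ) (hBc : B.card + 1 = Fintype.card V)
    {e : E} (he : e ∈ B) (heX : e ∈ cut a b X) (hone : ∀ h ∈ B, h ∈ cut a b X → h = e)
    (hTX : ¬ ConnOn a b T X) :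
    ∃ f ∈ T, f ∈ cut a b X ∧ ∃ g ∈ B, g ∈ ins a b X ∧
      ConnOn a b (insert g (T.erase f)) univ ∧ (insert g (T.erase f)).card = T.card ∧
      ConnOn a b (insert f (B.erase g)) univ ∧ (insert f (B.erase g)).card = B.card := by
  classical
  obtain ⟨x0, y0, hx0, hy0, hends⟩ := ends_of_cut heX
  have hBX : ConnOn a b B X := conn_of_one hB hone
  have hBXc : ConnOn a b B Xᶜ := conn_of_one (X := Xᶜ) (e := e) hB (fun h hh hc => hone h hh (by
    rw [mem_cut, mem_compl, mem_compl] at hc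
    rw [mem_cut]
    tauto))
  -- the component `C`
  obtain ⟨C, hC, hmin⟩ := exists_min_image (X.powerset.filter (fun Y => Y.Nonempty ∧ x0 ∉ Y ∧
      ∀ e ∈ T, e ∈ ins a b X → e ∉ cut a b Y)) card (by
    unfold ConnOn at hTX
    push Not at hTX
    obtain ⟨Y, hYX, hne, hne', hY⟩ := hTX
    by_cases hxY : x0 ∈ Y
    · refine ⟨X \ Y, mem_filter.2 ⟨mem_powerset.2 sdiff_subset, ?_, ?_, ?_⟩⟩
      · rw [sdiff_nonempty]
        exact fun hh => hne' (Subset.antisymm hYX hh)
      · exact fun hh => (mem_sdiff.1 hh).2 hxY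
      · intro e he hi hc
        refine hY e he hi ?_
        rw [mem_ins] at hi
        rw [mem_cut, mem_sdiff, mem_sdiff] at hc
        rw [mem_cut]
        tauto
    · exact ⟨Y, mem_filter.2 ⟨mem_powerset.2 hYX, hne, hxY, hY⟩⟩)
  rw [mem_filter, mem_powerset] at hC
  obtain ⟨hCX, hCne, hx0C, hCT⟩ := hC
  have hTC : ConnOn a b T C := by
    intro Y hYC hne hne'
    by_contra hcon
    push Not at hcon
    have h1 := hmin Y (mem_filter.2 ⟨mem_powerset.2 (hYC.trans hCX), hne,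
      fun hh => hx0C (hYC hh), ?_⟩)
    · have h2 := card_lt_card (hYC.ssubset_of_ne hne')
      omega
    · intro e he hi hc
      have h3 := hCT e he hi
      refine hcon e he ?_ hc
      rw [mem_cut, not_not] at h3
      rw [mem_cut] at hc
      rw [mem_ins]
      have h4 : a e ∈ Y → a e ∈ C := fun h => hYC h
      have h5 : b e ∈ Y → b e ∈ C := fun h => hYC h
      tauto
  -- the edge `f`
  obtain ⟨f, hfT, hfC, Zf, hfZ, hfund, hCZ, hxZ⟩ := exists_path (a := a) (b := b) (T := T)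
    (P0 := T) (Subset.refl _) (C := C) (D := C) (x0 := x0) (Subset.refl _) hx0C
    (fun Z h1 h2 => by
      obtain ⟨e, he, -, hec⟩ := hT Z (subset_univ _) (hCne.mono h1)
        (fun hh => h2 (hh ▸ mem_univ _))
      exact ⟨e, he, hec⟩)
    (fun f hf hfC => by
      obtain ⟨Z, h1, h2⟩ := fund hT hTc hf
      by_cases h3 : C ⊆ Z
      · exact ⟨Z, h1, h2, h3⟩
      · refine ⟨Zᶜ, ?_, ?_, ?_⟩
        · rw [mem_cut, mem_compl, mem_compl]
          rw [mem_cut] at h1
          tauto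
        · intro h hh hc
          refine h2 h hh ?_
          rw [mem_cut, mem_compl, mem_compl] at hc
          rw [mem_cut]
          tauto
        · intro x hx
          rw [mem_compl]
          intro hxZ
          obtain ⟨y, hy, hyZ⟩ := not_subset.1 h3
          obtain ⟨e, he, hi, hc⟩ := hTC.sep (Y := Z) ⟨x, hx, hxZ⟩ ⟨y, hy, hyZ⟩
          have h4 := h2 e he hc
          rw [h4, mem_ins] at hi
          rw [mem_cut] at hfC
          exact hfC ⟨fun _ => hi.2, fun _ => hi.1⟩)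
  obtain ⟨u, w, huC, hwC, hfe⟩ := ends_of_cut hfC
  have huX := hCX huC
  have hwX : w ∉ X := by
    intro hw
    refine hCT f hfT ?_ hfC
    rw [mem_ins]
    rcases hfe with ⟨h1, h2⟩ | ⟨h1, h2⟩
    · rw [h1, h2]
      exact ⟨huX, hw⟩
    · rw [h1, h2]
      exact ⟨hw, huX⟩
  have hfX : f ∈ cut a b X := by
    rw [mem_cut_of_ends hfe]
    exact fun hh => hwX (hh.1 huX)
  -- the edge `g`
  obtain ⟨g, hgP, hgD, Zg, hgZ, hgfund, huZ, hxZg⟩ := exists_path (a := a) (b := b) (T := B)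
    (P0 := B ∩ ins a b X) inter_subset_left (C := {u}) (D := Zf) (x0 := x0)
    (singleton_subset_iff.2 (hCZ huC)) hxZ
    (fun Z h1 h2 => by
      obtain ⟨e, he, hi, hec⟩ := hBX.sep (Y := Z) ⟨u, huX, singleton_subset_iff.1 h1⟩
        ⟨x0, hx0, h2⟩
      exact ⟨e, mem_inter.2 ⟨he, hi⟩, hec⟩)
    (fun f hf _ => by
      obtain ⟨Z, h1, h2⟩ := fund hB hBc (mem_inter.1 hf).1
      by_cases h3 : u ∈ Z
      · exact ⟨Z, h1, h2, singleton_subset_iff.2 h3⟩
      · refine ⟨Zᶜ, ?_, ?_, singleton_subset_iff.2 (mem_compl.2 h3)⟩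
        · rw [mem_cut, mem_compl, mem_compl]
          rw [mem_cut] at h1
          tauto
        · intro h hh hc
          refine h2 h hh ?_
          rw [mem_cut, mem_compl, mem_compl] at hc
          rw [mem_cut]
          tauto)
  obtain ⟨hgB, hgX⟩ := mem_inter.1 hgP
  rw [singleton_subset_iff] at huZ
  have hwZ : w ∉ Zg := by
    intro hw
    have h1 : y0 ∉ Zg := by
      intro hy
      have h2 : e ∈ cut a b Zg := by
        rw [mem_cut_of_ends hends]
        exact fun hh => hxZg (hh.2 hy)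
      have h3 := hgfund e he h2
      rw [h3, mem_cut] at heX
      rw [mem_ins] at hgX
      exact heX ⟨fun _ => hgX.2, fun _ => hgX.1⟩
    obtain ⟨h, hh, hi, hc⟩ := hBXc.sep (Y := Zg) ⟨w, mem_compl.2 hwX, hw⟩
      ⟨y0, mem_compl.2 hy0, h1⟩
    have h3 := hgfund h hh hc
    rw [h3, mem_ins, mem_compl] at hi
    rw [mem_ins] at hgX
    exact hi.1 hgX.1
  have hfZg : f ∈ cut a b Zg := by
    rw [mem_cut_of_ends hfe]
    exact fun hh => hwZ (hh.1 huZ)
  have hgT : g ∉ T := fun hh => (disjoint_left.1 hdis hh) hgB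
  have hfB : f ∉ B := fun hh => (disjoint_left.1 hdis hfT) hh
  refine ⟨f, hfT, hfX, g, hgB, hgX, swap hT hfZ hfund hgD, ?_, swap hB hgZ hgfund hfZg, ?_⟩
  · rw [card_insert_of_notMem (fun hh => hgT (mem_of_mem_erase hh)), card_erase_add_one hfT]
  · rw [card_insert_of_notMem (fun hh => hfB (mem_of_mem_erase hh)), card_erase_add_one hgB]

/-- a set which connects `X` has at least `|X| - 1` edges inside -/
theorem card_le_of_connOn {V E : Type*} [DecidableEq V] [Fintype V] [Fintype E] [DecidableEq E]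
    {a b : E → V} {T : Finset E} {X : Finset V} (hX : X.Nonempty) (h : ConnOn a b T X) :
    X.card ≤ (T ∩ ins a b X).card + 1 := by
  obtain ⟨r, hr⟩ := hX
  obtain ⟨T0, own, h1, -, -, -, -, h2⟩ := par_on a b X (T ∩ ins a b X)
    (fun e he => (mem_ins a b).1 (mem_inter.1 he).2) r hr (fun v hv => h.walk hr hv)
  have h3 := card_le_card h1
  omega

/-- **exchange** inside a set which `B` crosses once, keeping the old crossing edge `e` -/
theorem exchange {V E : Type} [Fintype V] [DecidableEq V] [Fintype E] [DecidableEq E]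
    (a b : E → V) {T B : Finset E} (hT : Tree a b T) (hB : Tree a b B) (hTB : Disjoint T B)
    {X : Finset V} {e : E} (he : B ∩ cut a b X = {e})
    (hne : (T ∩ ins a b X).card + 1 < X.card) :
    ∃ f ∈ T, ∃ g ∈ B, f ∈ cut a b X ∧ g ∈ ins a b X ∧
      Tree a b (insert g (T.erase f)) ∧ Tree a b (insert f (B.erase g)) := by
  have hX : X.Nonempty := card_pos.1 (by omega)
  have he1 : e ∈ B ∩ cut a b X := by
    rw [he]
    exact mem_singleton_self e
  obtain ⟨f, hf, hfX, g, hg, hgX, h1, h2, h3, h4⟩ := exch hTB hT.1 hT.2 hB.1 hB.2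
    (mem_inter.1 he1).1 (mem_inter.1 he1).2 (fun h hh hc => by
      have h5 : h ∈ B ∩ cut a b X := mem_inter.2 ⟨hh, hc⟩
      rw [he] at h5
      exact mem_singleton.1 h5)
    (fun hh => by
      have := card_le_of_connOn hX hh
      omega)
  exact ⟨f, hf, g, hg, hfX, hgX, ⟨h1, by rw [h2]; exact hT.2⟩, ⟨h3, by rw [h4]; exact hB.2⟩⟩

end Pool.Agent.Lib.MP_21a058_co.Every
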