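import Pool.Agent.Lib.MP_21a058_co.Every.Rise
import Pool.Agent.Lib.MP_21a058_co.Every.Start
import Pool.Agent.Lib.MP_21a058_co.P.Bridge

/-! MP_21a058_co, all tuples: the numbers. -/

namespace Pool.Agent.Lib.MP_21a058_co.Every

open Finset
open Pool.Agent.Lib.MP_21a058_co.P

variable {V E : Type} [Fintype V] [DecidableEq V] [Fintype E] [DecidableEq E] (a b : E → V)

/-- the graph theorem -/
theorem main (hV : Nonempty V) {s j c u d ε x : ℕ} (hj : 0 < j)
    (hcut : ∀ Y : Finset V, Y.Nonempty → Y ≠ univ →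
      2 * ((s + j + ε) + u) ≤ (cut a b Y).card)
    (h0 : 2 * c + j = u + d) (h1 : 2 * c ≤ u) (h2 : 2 * (u + d) ≤ 3 * u + 1)
    (h3 : (s + j) * d ≤ ε * x) (h4 : x + (u + d) ≤ (s + j + ε) + 2 * u) (h5 : ε ≤ s + j) :
    ∃ A : Fin s → Finset E, (∀ i j, i ≠ j → Disjoint (A i) (A j)) ∧
      (∀ i, ConnOn a b (A i) univ) ∧
      ∀ Y : Finset V, Y.Nonempty → Y ≠ univ →
        2 * (c + j) ≤ (cut a b Y \ univ.biUnion A).card := by
  obtain ⟨r⟩ := hV
  obtain ⟨B, hB, hB1, hB2⟩ := start a b ⟨r⟩ r hj hcut h0 h1 h2 h3 h4 h5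
  obtain ⟨A, hA, hA1⟩ := rise a b r s j c B hB hB1 hB2
  exact ⟨A, hA.2, fun i => (hA.1 i).1, hA1⟩

/-- the theorem for all tuples, general parameters -/
theorem arrow_gen {s j c u d ε x : ℕ} (hj : 0 < j) (h0 : 2 * c + j = u + d) (h1 : 2 * c ≤ u)
    (h2 : 2 * (u + d) ≤ 3 * u + 1) (h3 : (s + j) * d ≤ ε * x)
    (h4 : x + (u + d) ≤ (s + j + ε) + 2 * u) (h5 : ε ≤ s + j)
    {r : ℕ} (ks : Fin r → ℕ) (i0 : Fin r) (hs : ∑ i ∈ univ.erase i0, ks i ≤ s)
    (hk : ks i0 ≤ 2 * (c + j)) : Arrow (2 * ((s + j + ε) + u)) ks := by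
  refine arrow_of_thin (s := s) (l := 2 * (c + j)) ?_ ks i0 hs hk
  intro V E _ _ _ _ a b hV _ hcut
  exact main a b hV hj hcut h0 h1 h2 h3 h4 h5

/-- an even last part: `N = s + 2 q`, `m = N - δ` -/
theorem arrow_even {s q δ : ℕ} (hq : 0 < q) (h : 2 * δ * (s + 2 * q - δ) ≤ q * q)
    (hδ : 2 * δ ≤ s + 2 * q) {r : ℕ} (ks : Fin r → ℕ) (i0 : Fin r)
    (hs : ∑ i ∈ univ.erase i0, ks i ≤ s) (hk : ks i0 ≤ 2 * q) :
    Arrow (2 * (s + 2 * q - δ)) ks := by
  rcases Nat.eq_zero_or_pos δ with rfl | hδ0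
  · have h1 := arrow_gen (s := s) (c := 0) (j := q) (u := q) (d := 0) (ε := 0) (x := 0) hq
      (by omega) (by omega) (by omega) (by omega) (by omega) (by omega) ks i0 hs (by omega)
    have e1 : 2 * (s + q + 0 + q) = 2 * (s + 2 * q - 0) := by omega
    rw [e1] at h1
    exact h1
  obtain ⟨n, hn⟩ : ∃ n, s + 2 * q = δ + n := ⟨s + 2 * q - δ, by omega⟩
  have hn1 : s + 2 * q - δ = n := by omega
  rw [hn1] at h ⊢
  have hnδ : δ ≤ n := by omega
  rcases Nat.even_or_odd' q with ⟨p, rfl | rfl⟩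
  · -- `q = 2 p`
    have h' : δ * n ≤ 2 * p * p := by nlinarith
    have hδp : δ ≤ p := by
      by_contra hh
      push Not at hh
      have h2 : 2 * p ≤ n := by omega
      nlinarith
    obtain ⟨ε, rfl⟩ : ∃ ε, p = δ + ε := ⟨p - δ, by omega⟩
    have h1 := arrow_gen (s := s) (c := δ + ε) (j := δ + ε) (u := 2 * (δ + ε)) (d := δ + ε)
      (ε := ε) (x := s + 2 * (δ + ε) + ε) (by omega) (by ring) le_rfl (by omega)
      (by
        have h3 : n = s + 3 * δ + 4 * ε := by omega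
        subst h3
        nlinarith) (by omega) (by omega) ks i0 hs (by omega)
    have e1 : 2 * (s + (δ + ε) + ε + 2 * (δ + ε)) = 2 * n := by omega
    rw [e1] at h1
    exact h1
  · -- `q = 2 p + 1`
    have h' : δ * n ≤ 2 * p * (p + 1) := by
      have h3 : 2 * (δ * n) ≤ 2 * (2 * p * (p + 1)) + 1 := by nlinarith
      omega
    have hδp : δ ≤ p := by
      by_contra hh
      push Not at hh
      have h2 : 2 * p + 1 ≤ n := by omega
      nlinarith
    obtain ⟨ε, rfl⟩ : ∃ ε, p = δ + ε := ⟨p - δ, by omega⟩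
    have h1 := arrow_gen (s := s) (c := δ + ε + 1) (j := δ + ε) (u := 2 * (δ + ε) + 2)
      (d := δ + ε) (ε := ε) (x := s + 2 * (δ + ε) + 2 + ε) (by omega) (by ring) (by omega)
      (by omega)
      (by
        have h3 : n = s + 3 * δ + 4 * ε + 2 := by omega
        subst h3
        nlinarith) (by omega) (by omega) ks i0 hs (by omega)
    have e1 : 2 * (s + (δ + ε) + ε + (2 * (δ + ε) + 2)) = 2 * n := by omega
    rw [e1] at h1
    exact h1

theorem sum_split {r : ℕ} (ks : Fin r → ℕ) (j : Fin r) :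
    ∑ i, ks i = (∑ i ∈ univ.erase j, ks i) + ks j := by
  rw [sum_erase_add _ _ (mem_univ j)]

/-- all tuples, sharp form -/
theorem all_m {r : ℕ} (ks : Fin r → ℕ) (j : Fin r) (hj : 0 < ks j) (m : ℕ)
    (h1 : (∑ i, ks i) + ks j % 2 ≤ 2 * m)
    (h2 : 8 * (m * ((∑ i, ks i) + ks j % 2 - m)) ≤ (ks j + ks j % 2) ^ 2) :
    Arrow (2 * m) ks := by
  obtain ⟨q, hq⟩ : ∃ q, ks j + ks j % 2 = 2 * q := ⟨(ks j + ks j % 2) / 2, by omega⟩
  have hS := sum_split ks j
  set s := ∑ i ∈ univ.erase j, ks i with hs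
  have hN : (∑ i, ks i) + ks j % 2 = s + 2 * q := by omega
  rw [hN] at h1 h2
  rw [hq] at h2
  by_cases hm : s + 2 * q ≤ m
  · have h3 := arrow_even (s := m - 2 * q) (q := q) (δ := 0) (by omega) (by omega) (by omega) ks j
      (by omega) (by omega)
    have e1 : 2 * (m - 2 * q + 2 * q - 0) = 2 * m := by omega
    rw [e1] at h3
    exact h3
  · push Not at hm
    have h3 := arrow_even (s := s) (q := q) (δ := s + 2 * q - m) (by omega)
      (by
        have e2 : s + 2 * q - (s + 2 * q - m) = m := by omega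
        rw [e2]
        nlinarith) (by omega) ks j le_rfl (by omega)
    have e1 : 2 * (s + 2 * q - (s + 2 * q - m)) = 2 * m := by omega
    rw [e1] at h3
    exact h3

/-- all tuples, `f ≤ S + √(S² - k_j² / 2) + 3` -/
theorem all_sqrt {r : ℕ} (ks : Fin r → ℕ) (j : Fin r) (hj : 0 < ks j) (x : ℕ)
    (hx : 2 * (∑ i, ks i) ^ 2 ≤ 2 * x ^ 2 + (ks j) ^ 2) :
    Arrow ((∑ i, ks i) + x + 1 + 2 * (ks j % 2)) ks := by
  have hS := sum_split ks j
  set s := ∑ i ∈ univ.erase j, ks i with hs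
  set l := ks j with hl
  set S := ∑ i, ks i with hSd
  have hlS : l ≤ S := by omega
  set e := l % 2 with he
  have he2 : e = 0 ∨ e = 1 := by omega
  -- `m = ⌈(S + x + 2 e) / 2⌉`
  obtain ⟨m, hm1, hm2⟩ : ∃ m, S + x + 2 * e ≤ 2 * m ∧ 2 * m ≤ S + x + 1 + 2 * e :=
    ⟨(S + x + 1 + 2 * e) / 2, by omega, by omega⟩
  refine arrow_mono hm2 (all_m ks j hj m (by omega) ?_)
  rw [← hl, ← hSd, ← he]
  by_cases hmS : S + e ≤ m
  · have : S + e - m = 0 := by omega
    rw [this]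
    simp
  push Not at hmS
  obtain ⟨δ, hδ⟩ : ∃ δ, S + e = m + δ := ⟨S + e - m, by omega⟩
  have e1 : S + e - m = δ := by omega
  rw [e1]
  have hx1 : x ≤ S := by omega
  -- `7 l + 10 x ≥ 10 S` type inequality: `S - x ≤ l / 2`
  have hxl : 2 * S ≤ 2 * x + l := by
    by_contra hh
    push Not at hh
    obtain ⟨y, hy⟩ : ∃ y, 2 * S = 2 * x + l + y := ⟨2 * S - (2 * x + l), by omega⟩
    have hy0 : 0 < y := by omega
    nlinarith
  rcases he2 with h0 | h0
  · rw [h0] at hδ hm1 ⊢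
    zify at *
    nlinarith
  · rw [h0] at hδ hm1 ⊢
    zify at *
    nlinarith

end Pool.Agent.Lib.MP_21a058_co.Every
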