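import Pool.Agent.Lib.MP_21a058_co.Every.Defs
import Pool.Agent.Lib.MP_21a058_co.P.Rank

/-! Elementary facts on one spanning tree (MP_21a058_co): a set which the tree crosses at most
once, and the edges at a proper set. -/

namespace Pool.Agent.Lib.MP_21a058_co.Every

open Finset
open Pool.Agent.Lib.MP_21a058_co.P

variable {V E : Type} [Fintype V] [DecidableEq V] [Fintype E] [DecidableEq E] (a b : E → V)

private theorem trb_ins_le {T : Finset E} (h : Tree a b T) {X : Finset V} (hX : X.Nonempty) :
    (T ∩ ins a b X).card + 1 ≤ X.card := by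
  classical
  obtain ⟨x0, hx0⟩ := hX
  -- `T` is independent
  have h1 : Fintype.card V ≤ rk a b T + 1 := by
    have := card_le_of_conn a b h.1
    rwa [card_univ] at this
  have h2 : T.card ≤ rk a b T := by
    have := h.2
    omega
  have h3 : rk a b T ≤ rk a b (T ∩ ins a b X) + (T \ ins a b X).card := by
    apply rk_le_add_card
    intro e he
    rw [mem_union, mem_inter, mem_sdiff]
    by_cases h4 : e ∈ ins a b X
    · exact Or.inl ⟨he, h4⟩
    · exact Or.inr ⟨he, h4⟩
  have h4 : (T ∩ ins a b X).card + (T \ ins a b X).card = T.card := by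
    rw [← card_union_of_disjoint]
    · congr 1
      ext e
      simp only [mem_union, mem_inter, mem_sdiff]
      tauto
    · rw [disjoint_left]
      intro e h5 h6
      exact (mem_sdiff.1 h6).2 (mem_inter.1 h5).2
  have h5 : rk a b (T ∩ ins a b X) +
      (univ.image (fun v => if v ∈ X then x0 else v)).card ≤ Fintype.card V := by
    apply rk_add_image_le
    intro e he
    obtain ⟨h6, h7⟩ := (mem_ins a b).1 (mem_inter.1 he).2
    simp only [h6, h7, if_true]
  have h6 : (insert x0 Xᶜ).card ≤ (univ.image (fun v => if v ∈ X then x0 else v)).card := by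
    apply card_le_card
    intro v hv
    rw [mem_image]
    rcases mem_insert.1 hv with rfl | hv
    · exact ⟨v, mem_univ _, by simp [hx0]⟩
    · exact ⟨v, mem_univ _, by simp [mem_compl.1 hv]⟩
  rw [card_insert_of_notMem (fun h => (mem_compl.1 h) hx0), card_compl] at h6
  have h7 : X.card ≤ Fintype.card V := card_le_univ X
  omega

private theorem trb_conn {T : Finset E} (h : ConnOn a b T univ) {X : Finset V}
    (h1 : (T ∩ cut a b X).card ≤ 1) : ConnOn a b T X := by
  classical
  intro Y hYX hne hne'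
  by_contra hcon
  push Not at hcon
  obtain ⟨y, hy⟩ := hne
  obtain ⟨z, hzX, hzY⟩ : ∃ z ∈ X, z ∉ Y := by
    by_contra hc
    push Not at hc
    exact hne' (Subset.antisymm hYX hc)
  have hcross : ∀ S : Finset V, S.Nonempty → S ≠ univ → ∃ e ∈ T, e ∈ cut a b S := by
    intro S hS hS'
    obtain ⟨e, h2, -, h3⟩ := h S (subset_univ _) hS hS'
    exact ⟨e, h2, h3⟩
  obtain ⟨e, heT, he⟩ := hcross Y ⟨y, hy⟩ (fun h => hzY (h ▸ mem_univ z))
  obtain ⟨f, hfT, hf⟩ := hcross (X \ Y) ⟨z, mem_sdiff.2 ⟨hzX, hzY⟩⟩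
    (fun h => (mem_sdiff.1 (h ▸ mem_univ y)).2 hy)
  have h2 : e ∉ ins a b X := fun h => hcon e heT h he
  have h3 : f ∉ ins a b X := by
    intro h4
    apply hcon f hfT h4
    rw [mem_ins] at h4
    rw [mem_cut, mem_sdiff, mem_sdiff] at hf
    rw [mem_cut]
    tauto
  have h4 : e ∈ cut a b X := by
    rw [mem_ins] at h2
    rw [mem_cut] at he ⊢
    intro h5
    have h6 := @hYX (a e)
    have h7 := @hYX (b e)
    tauto
  have h5 : f ∈ cut a b X := by
    rw [mem_ins] at h3
    rw [mem_cut, mem_sdiff, mem_sdiff] at hf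
    rw [mem_cut]
    tauto
  have h6 : e ≠ f := by
    rintro rfl
    rw [mem_cut] at he h4
    rw [mem_cut, mem_sdiff, mem_sdiff] at hf
    have h6 := @hYX (a e)
    have h7 := @hYX (b e)
    tauto
  have h7 : ({e, f} : Finset E) ⊆ T ∩ cut a b X := by
    intro x hx
    rcases mem_insert.1 hx with rfl | hx
    · exact mem_inter.2 ⟨heT, h4⟩
    · rw [mem_singleton.1 hx]
      exact mem_inter.2 ⟨hfT, h5⟩
  have h8 := card_le_card h7
  rw [card_pair h6] at h8
  omega

/-- one crossing edge: connected inside -/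
theorem Tree.ins_eq {T : Finset E} (h : Tree a b T) {X : Finset V} (hX : X.Nonempty)
    (h1 : (T ∩ cut a b X).card ≤ 1) : (T ∩ ins a b X).card + 1 = X.card := by
  classical
  have h2 := trb_ins_le a b h hX
  have h3 := trb_conn a b h.1 h1
  have h4 : ConnOn a b (T ∩ ins a b X) X := by
    intro Y h5 h6 h7
    obtain ⟨e, h8, h9, h10⟩ := h3 Y h5 h6 h7
    exact ⟨e, mem_inter.2 ⟨h8, h9⟩, h9, h10⟩
  have h5 := card_le_of_conn a b h4
  have h6 := rk_le_card a b (T ∩ ins a b X)
  omega

/-- every component inside `X` is left by an edge -/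
theorem Tree.cut_add_ins {T : Finset E} (h : Tree a b T) {X : Finset V}
    (hX1 : X ≠ univ) : X.card ≤ (T ∩ cut a b X).card + (T ∩ ins a b X).card := by
  classical
  have h1 : (Xᶜ).Nonempty := by
    rw [nonempty_iff_ne_empty]
    intro h2
    exact hX1 (compl_eq_empty_iff X |>.1 h2)
  have h2 := trb_ins_le a b h h1
  have h3 : T.card ≤ (T ∩ cut a b X).card + (T ∩ ins a b X).card + (T ∩ ins a b Xᶜ).card := by
    have h4 : T ⊆ (T ∩ cut a b X) ∪ (T ∩ ins a b X) ∪ (T ∩ ins a b Xᶜ) := by
      intro e he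
      simp only [mem_union, mem_inter, mem_cut, mem_ins, mem_compl]
      tauto
    exact (card_le_card h4).trans ((card_union_le _ _).trans
      (Nat.add_le_add_right (card_union_le _ _) _))
  have h4 := h.2
  rw [card_compl] at h2
  have h5 : X.card ≤ Fintype.card V := card_le_univ X
  omega

end Pool.Agent.Lib.MP_21a058_co.Every
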