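import Pool.Agent.Lib.MP_21a058_co.Every.Exch
import Pool.Agent.Lib.MP_21a058_co.Every.TrB

/-! MP_21a058_co, all tuples: one tree = plus two. -/

set_option linter.unusedSectionVars false

namespace Pool.Agent.Lib.MP_21a058_co.Every

open Finset
open Pool.Agent.Lib.MP_21a058_co.P

variable {V E : Type} [Fintype V] [DecidableEq V] [Fintype E] [DecidableEq E] (a b : E → V)

/-- edges of `F` between `P` and `Q` -/
def bt (F : Finset E) (P Q : Finset V) : Finset E :=
  F.filter fun e => (a e ∈ P ∧ b e ∈ Q) ∨ (b e ∈ P ∧ a e ∈ Q)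

theorem card_cut_sum (F : Finset E) (X : Finset V) : (F ∩ cut a b X).card =
    ∑ e ∈ F, if ¬ (a e ∈ X ↔ b e ∈ X) then 1 else 0 := by
  have h : F ∩ cut a b X = F.filter fun e => ¬ (a e ∈ X ↔ b e ∈ X) := by
    ext e
    simp only [mem_inter, mem_cut, mem_filter]
  rw [h, card_filter]

theorem tw_cnt_sum (F : Finset E) {A X : Finset V} (h : Disjoint A X) :
    (F ∩ cut a b A).card + (F ∩ cut a b (A ∪ X)).card =
      2 * (bt a b F A (A ∪ X)ᶜ).card + (F ∩ cut a b X).card := by
  rw [card_cut_sum, card_cut_sum, card_cut_sum, bt, card_filter, mul_sum, ← sum_add_distrib,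
    ← sum_add_distrib]
  apply sum_congr rfl
  intro e _
  have h1 : a e ∈ A → a e ∉ X := fun h' => disjoint_left.1 h h'
  have h2 : b e ∈ A → b e ∉ X := fun h' => disjoint_left.1 h h'
  by_cases h3 : a e ∈ A <;> by_cases h4 : b e ∈ A <;> by_cases h5 : a e ∈ X <;>
    by_cases h6 : b e ∈ X <;> simp_all

theorem tw_cnt_split (F : Finset E) (X Y : Finset V) :
    (F ∩ cut a b (X ∩ Y)).card + (F ∩ cut a b (X \ Y)).card =
      2 * (bt a b F (X ∩ Y) (X \ Y)).card + (F ∩ cut a b X).card := by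
  rw [card_cut_sum, card_cut_sum, card_cut_sum, bt, card_filter, mul_sum, ← sum_add_distrib,
    ← sum_add_distrib]
  apply sum_congr rfl
  intro e _
  by_cases h3 : a e ∈ Y <;> by_cases h4 : b e ∈ Y <;> by_cases h5 : a e ∈ X <;>
    by_cases h6 : b e ∈ X <;> simp_all

theorem tw_cnt_ge (F : Finset E) (X Y : Finset V) :
    (bt a b F (Y \ X) ((Y \ X) ∪ X)ᶜ).card + (bt a b F (X ∩ Y) (X \ Y)).card +
      (bt a b F (X ∩ Y) ((Y \ X) ∪ X)ᶜ).card ≤ (F ∩ cut a b Y).card := by
  rw [card_cut_sum, bt, bt, bt, card_filter, card_filter, card_filter, ← sum_add_distrib,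
    ← sum_add_distrib]
  apply sum_le_sum
  intro e _
  by_cases h3 : a e ∈ Y <;> by_cases h4 : b e ∈ Y <;> by_cases h5 : a e ∈ X <;>
    by_cases h6 : b e ∈ X <;> simp_all

theorem bt_mono {F F' : Finset E} {P Q : Finset V}
    (h : ∀ e ∈ F, (a e ∈ P ∧ b e ∈ Q) ∨ (b e ∈ P ∧ a e ∈ Q) → e ∈ F') :
    (bt a b F P Q).card ≤ (bt a b F' P Q).card := by
  apply card_le_card
  intro e he
  rw [bt, mem_filter] at he ⊢
  exact ⟨h e he.1 he.2, he.2⟩

theorem tw_cut_compl (X : Finset V) : cut a b Xᶜ = cut a b X := by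
  ext e
  simp only [mem_cut, mem_compl]
  tauto

/-- a distribution of the edges of `U` into `n` trees `C` and one tree `D` -/
structure Dist {n : ℕ} (U : Finset E) (C : Fin n → Finset E) (D : Finset E) : Prop where
  trees : Trees a b C
  tree : Tree a b D
  disj : ∀ i, Disjoint (C i) D
  un : un C ∪ D = U

/-- the rest together with `D` has at most `k + 1` edges at `Z` -/
def Bad (r : V) (k : ℕ) (U D : Finset E) (Z : Finset V) : Prop :=
  Z.Nonempty ∧ r ∉ Z ∧ (((univ \ U) ∪ D) ∩ cut a b Z).card ≤ k + 1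

theorem card_HD {U D : Finset E} (hD : D ⊆ U) (Z : Finset V) :
    (((univ \ U) ∪ D) ∩ cut a b Z).card = ((univ \ U) ∩ cut a b Z).card + (D ∩ cut a b Z).card := by
  rw [union_inter_distrib_right, card_union_of_disjoint]
  rw [disjoint_left]
  intro e he he'
  rw [mem_inter, mem_sdiff] at he
  rw [mem_inter] at he'
  exact he.1.2 (hD he'.1)

theorem Tree.one_le {D : Finset E} (hD : Tree a b D) {Z : Finset V} (h1 : Z.Nonempty)
    (h2 : Z ≠ univ) : 1 ≤ (D ∩ cut a b Z).card := by
  obtain ⟨e, he, -, he2⟩ := hD.1 Z (subset_univ _) h1 h2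
  exact card_pos.2 ⟨e, mem_inter.2 ⟨he, he2⟩⟩

theorem ne_univ_of {r : V} {Z : Finset V} (h : r ∉ Z) : Z ≠ univ := by
  rintro rfl
  exact h (mem_univ r)

/-- the exchange step -/
theorem two_step {n k : ℕ} (r : V) {U : Finset E} {C : Fin n → Finset E} {D : Finset E}
    (hdist : Dist a b U C D)
    (h1 : ∀ Y : Finset V, Y.Nonempty → Y ≠ univ → k ≤ ((univ \ U) ∩ cut a b Y).card)
    (h2 : ∀ X : Finset V, X.Nonempty → r ∉ X →
      k + 1 + (U ∩ ins a b X).card ≤ ((univ \ U) ∩ cut a b X).card + (n + 1) * (X.card - 1))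
    {X : Finset V} (hX : Bad a b r k U D X) (hmax : ∀ Z, Bad a b r k U D Z → X ⊆ Z → Z = X) :
    ∃ (C' : Fin n → Finset E) (D' : Finset E), Dist a b U C' D' ∧
      (∀ Y, Bad a b r k U D' Y → ∀ y ∈ Y, ∃ Z, Bad a b r k U D Z ∧ y ∈ Z) ∧
      ∃ x ∈ X, ∀ Z, Bad a b r k U D' Z → (∀ Z', Bad a b r k U D' Z' → Z ⊆ Z' → Z' = Z) →
        x ∈ Z → Z ⊂ X := by
  obtain ⟨hXne, hrX, hXk⟩ := hX
  have hXu : X ≠ univ := ne_univ_of hrX
  have hDU : D ⊆ U := by rw [← hdist.un]; exact subset_union_right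
  have hCU : ∀ i, C i ⊆ U := by
    intro i
    rw [← hdist.un]
    exact (subset_biUnion_of_mem C (mem_univ i)).trans subset_union_left
  have hX0 := h1 X hXne hXu
  have hXD := hdist.tree.one_le a b hXne hXu
  have hXs := card_HD a b hDU X
  have hX0' : ((univ \ U) ∩ cut a b X).card = k := by omega
  have hXD' : (D ∩ cut a b X).card = 1 := by omega
  obtain ⟨e, he⟩ := card_eq_one.1 hXD'
  have heD : e ∈ D ∧ e ∈ cut a b X := by
    have : e ∈ D ∩ cut a b X := by rw [he]; exact mem_singleton_self e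
    exact mem_inter.1 this
  -- a tree which is not connected on X
  have hDins := hdist.tree.ins_eq a b hXne (by omega)
  have hU : (U ∩ ins a b X).card = ∑ i, (C i ∩ ins a b X).card + (D ∩ ins a b X).card := by
    rw [← hdist.un, union_inter_distrib_right, card_union_of_disjoint, Every.un,
      biUnion_inter, card_biUnion]
    · intro i _ j _ hij
      exact (hdist.trees.2 i j hij).mono inter_subset_left inter_subset_left
    · rw [disjoint_left]
      intro x hx hx'
      rw [mem_inter, mem_un] at hx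
      obtain ⟨⟨i, hi⟩, -⟩ := hx
      exact disjoint_left.1 (hdist.disj i) hi (mem_inter.1 hx').1
  have hex : ∃ i, (C i ∩ ins a b X).card + 1 < X.card := by
    by_contra hcon
    push Not at hcon
    have h3 : ∑ _i : Fin n, (X.card - 1) ≤ ∑ i, (C i ∩ ins a b X).card := by
      apply sum_le_sum
      intro i _
      have := hcon i
      omega
    rw [sum_const, card_univ, Fintype.card_fin, smul_eq_mul] at h3
    have h4 := h2 X hXne hrX
    have h5 : (n + 1) * (X.card - 1) = n * (X.card - 1) + (X.card - 1) := by ring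
    omega
  obtain ⟨i, hi⟩ := hex
  obtain ⟨f, hf, g, hg, hfX, hgX, hT1, hT2⟩ :=
    exchange a b (hdist.trees.1 i) hdist.tree (hdist.disj i) he hi
  have hfU := hCU i hf
  have hgU := hDU hg
  have hfD : f ∉ D := fun h => disjoint_left.1 (hdist.disj i) hf h
  have hgC : ∀ j, g ∉ C j := fun j h => disjoint_left.1 (hdist.disj j) h hg
  have hfg : f ≠ g := fun h => hfD (h ▸ hg)
  have hgX' : a g ∈ X ∧ b g ∈ X := (mem_ins a b).1 hgX
  have hge : g ≠ e := by
    rintro rfl
    exact (mem_cut a b).1 heD.2 ⟨fun _ => hgX'.2, fun _ => hgX'.1⟩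
  set D' := insert f (D.erase g) with hD'
  set C' : Fin n → Finset E := Function.update C i (insert g ((C i).erase f)) with hC'
  have hC'i : C' i = insert g ((C i).erase f) := Function.update_self _ _ _
  have hC'j : ∀ j, j ≠ i → C' j = C j := fun j hj => Function.update_of_ne hj _ _
  have hD'U : D' ⊆ U := by
    intro x hx
    rcases mem_insert.1 hx with rfl | hx
    · exact hfU
    · exact hDU (mem_of_mem_erase hx)
  have hdist' : Dist a b U C' D' := by
    refine ⟨⟨fun j => ?_, fun j l hjl => ?_⟩, hT2, fun j => ?_, ?_⟩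
    · by_cases hj : j = i
      · subst hj; rw [hC'i]; exact hT1
      · rw [hC'j j hj]; exact hdist.trees.1 j
    · -- disjoint
      have key : ∀ j, j ≠ i → Disjoint (C' i) (C' j) := by
        intro j hj
        rw [hC'i, hC'j j hj, disjoint_left]
        intro x hx hx'
        rcases mem_insert.1 hx with rfl | hx
        · exact hgC j hx'
        · exact disjoint_left.1 (hdist.trees.2 i j (Ne.symm hj)) (mem_of_mem_erase hx) hx'
      by_cases hj : j = i
      · subst hj; exact key l (Ne.symm hjl)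
      · by_cases hl : l = i
        · subst hl; exact (key j hj).symm
        · rw [hC'j j hj, hC'j l hl]; exact hdist.trees.2 j l hjl
    · by_cases hj : j = i
      · subst hj
        rw [hC'i, disjoint_left]
        intro x hx hx'
        rcases mem_insert.1 hx with rfl | hx
        · rcases mem_insert.1 hx' with h | h
          · exact hfg h.symm
          · exact (mem_erase.1 h).1 rfl
        · rcases mem_insert.1 hx' with h | h
          · exact (mem_erase.1 hx).1 h
          · exact disjoint_left.1 (hdist.disj j) (mem_of_mem_erase hx) (mem_of_mem_erase h)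
      · rw [hC'j j hj, disjoint_left]
        intro x hx hx'
        rcases mem_insert.1 hx' with rfl | h
        · exact disjoint_left.1 (hdist.trees.2 j i hj) hx hf
        · exact disjoint_left.1 (hdist.disj j) hx (mem_of_mem_erase h)
    · ext x
      have hxU : x ∈ U ↔ (∃ j, x ∈ C j) ∨ x ∈ D := by
        rw [← hdist.un, mem_union, mem_un]
      rw [mem_union, mem_un, hxU]
      constructor
      · rintro (⟨j, hj⟩ | hx)
        · by_cases hji : j = i
          · subst hji
            rw [hC'i] at hj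
            rcases mem_insert.1 hj with rfl | hj
            · exact Or.inr hg
            · exact Or.inl ⟨j, mem_of_mem_erase hj⟩
          · rw [hC'j j hji] at hj
            exact Or.inl ⟨j, hj⟩
        · rcases mem_insert.1 hx with rfl | hx
          · exact Or.inl ⟨i, hf⟩
          · exact Or.inr (mem_of_mem_erase hx)
      · rintro (⟨j, hj⟩ | hx)
        · by_cases hxf : x = f
          · exact Or.inr (hxf ▸ mem_insert_self _ _)
          · by_cases hji : j = i
            · subst hji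
              exact Or.inl ⟨j, by rw [hC'i]; exact mem_insert_of_mem (mem_erase.2 ⟨hxf, hj⟩)⟩
            · exact Or.inl ⟨j, by rw [hC'j j hji]; exact hj⟩
        · by_cases hxg : x = g
          · exact Or.inl ⟨i, by rw [hC'i, hxg]; exact mem_insert_self _ _⟩
          · exact Or.inr (mem_insert_of_mem (mem_erase.2 ⟨hxg, hx⟩))
  -- facts on H and H'
  have hHH : ∀ x, x ∈ (univ \ U) ∪ D → x ≠ g → x ∈ (univ \ U) ∪ D' := by
    intro x hx hxg
    rcases mem_union.1 hx with hx | hx
    · exact mem_union_left _ hx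
    · exact mem_union_right _ (mem_insert_of_mem (mem_erase.2 ⟨hxg, hx⟩))
  have huncut : ∀ Y : Finset V, (X ⊆ Y ∨ Disjoint X Y) → Y.Nonempty → r ∉ Y →
      Bad a b r k U D' Y → Bad a b r k U D Y := by
    intro Y hY hYne hrY hbad
    refine ⟨hYne, hrY, le_trans (card_le_card ?_) hbad.2.2⟩
    intro x hx
    rw [mem_inter] at hx ⊢
    refine ⟨hHH x hx.1 ?_, hx.2⟩
    rintro rfl
    have h3 := (mem_cut a b).1 hx.2
    rcases hY with hY | hY
    · exact h3 ⟨fun _ => hY hgX'.2, fun _ => hY hgX'.1⟩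
    · exact h3 ⟨fun h => absurd h (disjoint_left.1 hY hgX'.1),
        fun h => absurd h (disjoint_left.1 hY hgX'.2)⟩
  have hHD' := card_HD a b hD'U
  have hHD := card_HD a b hDU
  have hXD2 : 2 ≤ (D' ∩ cut a b X).card := by
    have : ({e, f} : Finset E) ⊆ D' ∩ cut a b X := by
      intro x hx
      rw [mem_insert, mem_singleton] at hx
      rcases hx with rfl | rfl
      · exact mem_inter.2 ⟨mem_insert_of_mem (mem_erase.2 ⟨hge.symm, heD.1⟩), heD.2⟩
      · exact mem_inter.2 ⟨mem_insert_self _ _, hfX⟩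
    have h3 := card_le_card this
    have hef : e ≠ f := by
      rintro rfl
      exact hfD heD.1
    rw [card_pair hef] at h3
    exact h3
  have hgood : ¬ Bad a b r k U D' X := by
    intro h
    have h3 := h.2.2
    rw [hHD'] at h3
    omega
  -- the two counting facts for a set Y which cuts X
  have hcount : ∀ Y : Finset V, (X ∩ Y).Nonempty → (X \ Y).Nonempty → r ∉ Y →
      k ≤ 2 * (bt a b ((univ \ U) ∪ D') (X ∩ Y) (X \ Y)).card ∧
      (bt a b ((univ \ U) ∪ D) (Y \ X) ((Y \ X) ∪ X)ᶜ).card ≤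
        (bt a b ((univ \ U) ∪ D') (Y \ X) ((Y \ X) ∪ X)ᶜ).card := by
    intro Y hY1 hY2 hrY
    constructor
    · have h3 := tw_cnt_split a b (univ \ U) X Y
      have h4 := h1 (X ∩ Y) hY1 (ne_univ_of (r := r) fun h => hrX (mem_inter.1 h).1)
      have h5 := h1 (X \ Y) hY2 (ne_univ_of (r := r) fun h => hrX (mem_sdiff.1 h).1)
      have h6 : (bt a b (univ \ U) (X ∩ Y) (X \ Y)).card ≤
          (bt a b ((univ \ U) ∪ D') (X ∩ Y) (X \ Y)).card :=
        bt_mono a b fun x hx _ => mem_union_left _ hx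
      omega
    · apply bt_mono
      intro x hx hxx
      refine hHH x hx ?_
      rintro rfl
      rcases hxx with h | h
      · exact (mem_sdiff.1 h.1).2 hgX'.1
      · exact (mem_sdiff.1 h.1).2 hgX'.2
  refine ⟨C', D', hdist', ?_, ?_⟩
  · -- covered vertices stay covered
    intro Y hY y hy
    obtain ⟨hYne, hrY, hYk⟩ := hY
    by_cases hc : X ⊆ Y ∨ Disjoint X Y
    · exact ⟨Y, huncut Y hc hYne hrY ⟨hYne, hrY, hYk⟩, hy⟩
    push Not at hc
    obtain ⟨hc1, hc2⟩ := hc
    have hY1 : (X ∩ Y).Nonempty := by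
      rw [disjoint_iff_inter_eq_empty] at hc2
      exact nonempty_iff_ne_empty.2 hc2
    have hY2 : (X \ Y).Nonempty := sdiff_nonempty.2 hc1
    by_contra hcov
    push Not at hcov
    have hyX : y ∉ X := fun h => hcov X ⟨hXne, hrX, hXk⟩ h
    have hyA : y ∈ Y \ X := mem_sdiff.2 ⟨hy, hyX⟩
    have hA : ¬ Bad a b r k U D (Y \ X) := fun h => hcov _ h hyA
    have hAX : ¬ Bad a b r k U D ((Y \ X) ∪ X) := fun h => hcov _ h (mem_union_left _ hyA)
    have hA' : k + 2 ≤ (((univ \ U) ∪ D) ∩ cut a b (Y \ X)).card := by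
      by_contra hh
      exact hA ⟨⟨y, hyA⟩, fun h => hrY (mem_sdiff.1 h).1, by omega⟩
    have hAX' : k + 2 ≤ (((univ \ U) ∪ D) ∩ cut a b ((Y \ X) ∪ X)).card := by
      by_contra hh
      refine hAX ⟨⟨y, mem_union_left _ hyA⟩, fun h => ?_, by omega⟩
      rcases mem_union.1 h with h | h
      · exact hrY (mem_sdiff.1 h).1
      · exact hrX h
    have h3 := tw_cnt_sum a b ((univ \ U) ∪ D) (disjoint_sdiff_self_left : Disjoint (Y \ X) X)
    have h4 := tw_cnt_ge a b ((univ \ U) ∪ D') X Y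
    obtain ⟨h5, h6⟩ := hcount Y hY1 hY2 hrY
    omega
  · -- the end of e
    obtain ⟨x, hxX, y, hyX, hxy⟩ : ∃ x ∈ X, ∃ y, y ∉ X ∧ ((a e = x ∧ b e = y) ∨
        (b e = x ∧ a e = y)) := by
      have h3 := (mem_cut a b).1 heD.2
      by_cases h4 : a e ∈ X
      · by_cases h5 : b e ∈ X
        · exact absurd ⟨fun _ => h5, fun _ => h4⟩ h3
        · exact ⟨a e, h4, b e, h5, Or.inl ⟨rfl, rfl⟩⟩
      · by_cases h5 : b e ∈ X
        · exact ⟨b e, h5, a e, h4, Or.inr ⟨rfl, rfl⟩⟩
        · exact absurd ⟨fun h => absurd h h4, fun h => absurd h h5⟩ h3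
    refine ⟨x, hxX, fun Z hZ hZmax hxZ => ?_⟩
    obtain ⟨hZne, hrZ, hZk⟩ := hZ
    have hXZ : ¬ X ⊆ Z := by
      intro h
      have h3 := huncut Z (Or.inl h) hZne hrZ ⟨hZne, hrZ, hZk⟩
      have h4 := hmax Z h3 h
      rw [h4] at hZk hZne hrZ
      exact hgood ⟨hZne, hrZ, hZk⟩
    refine Finset.ssubset_iff_subset_ne.2 ⟨?_, fun h => hXZ h.symm.subset⟩
    by_contra hZX
    have hY1 : (X ∩ Z).Nonempty := ⟨x, mem_inter.2 ⟨hxX, hxZ⟩⟩
    have hY2 : (X \ Z).Nonempty := sdiff_nonempty.2 hXZ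
    have hA : (Z \ X).Nonempty := sdiff_nonempty.2 hZX
    have hrA : r ∉ Z \ X := fun h => hrZ (mem_sdiff.1 h).1
    have hrAX : r ∉ (Z \ X) ∪ X := by
      intro h
      rcases mem_union.1 h with h | h
      · exact hrA h
      · exact hrX h
    have hA0 := h1 (Z \ X) hA (ne_univ_of hrA)
    have hA1 := hdist.tree.one_le a b hA (ne_univ_of hrA)
    have hAX' : k + 2 ≤ (((univ \ U) ∪ D) ∩ cut a b ((Z \ X) ∪ X)).card := by
      by_contra hh
      have h3 := hmax ((Z \ X) ∪ X) ⟨hA.mono subset_union_left, hrAX, by omega⟩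
        subset_union_right
      obtain ⟨z, hz⟩ := hA
      have h4 : z ∈ (Z \ X) ∪ X := mem_union_left _ hz
      rw [h3] at h4
      exact (mem_sdiff.1 hz).2 h4
    have h3 := tw_cnt_sum a b ((univ \ U) ∪ D) (disjoint_sdiff_self_left : Disjoint (Z \ X) X)
    have h4 := tw_cnt_ge a b ((univ \ U) ∪ D') X Z
    obtain ⟨h5, h6⟩ := hcount Z hY1 hY2 hrZ
    have h7 := hHD (Z \ X)
    have h8 : (bt a b ((univ \ U) ∪ D') (X ∩ Z) ((Z \ X) ∪ X)ᶜ).card = 0 := by omega
    have h9 : (D ∩ cut a b (Z \ X)).card = 1 := by omega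
    -- the other end of e
    have heD' : e ∈ (univ \ U) ∪ D' :=
      mem_union_right _ (mem_insert_of_mem (mem_erase.2 ⟨hge.symm, heD.1⟩))
    have hyZ : y ∈ Z := by
      by_contra hyZ
      have hyc : y ∈ ((Z \ X) ∪ X)ᶜ := by
        rw [mem_compl, mem_union, mem_sdiff]
        rintro (h | h)
        · exact hyZ h.1
        · exact hyX h
      have : e ∈ bt a b ((univ \ U) ∪ D') (X ∩ Z) ((Z \ X) ∪ X)ᶜ := by
        rw [bt, mem_filter]
        refine ⟨heD', ?_⟩
        rcases hxy with ⟨h, h'⟩ | ⟨h, h'⟩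
        · left; rw [h, h']; exact ⟨mem_inter.2 ⟨hxX, hxZ⟩, hyc⟩
        · right; rw [h, h']; exact ⟨mem_inter.2 ⟨hxX, hxZ⟩, hyc⟩
      rw [card_eq_zero] at h8
      rw [h8] at this
      exact notMem_empty _ this
    have heA : e ∈ D ∩ cut a b (Z \ X) := by
      rw [mem_inter, mem_cut, mem_sdiff, mem_sdiff]
      refine ⟨heD.1, ?_⟩
      rcases hxy with ⟨h, h'⟩ | ⟨h, h'⟩
      · rw [h, h']
        exact fun hh => (hh.2 ⟨hyZ, hyX⟩).2 hxX
      · rw [h, h']
        exact fun hh => (hh.1 ⟨hyZ, hyX⟩).2 hxX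
    have h10 := tw_cnt_sum a b D (disjoint_sdiff_self_left : Disjoint (Z \ X) X)
    have h11 := hdist.tree.one_le a b (hA.mono (subset_union_left (s₂ := X))) (ne_univ_of hrAX)
    have h12 : 0 < (bt a b D (Z \ X) ((Z \ X) ∪ X)ᶜ).card := by omega
    obtain ⟨w, hw⟩ := card_pos.1 h12
    rw [bt, mem_filter] at hw
    have hwA : w ∈ D ∩ cut a b (Z \ X) := by
      rw [mem_inter, mem_cut]
      refine ⟨hw.1, ?_⟩
      rcases hw.2 with h | h
      · have h14 := h.2
        rw [mem_compl, mem_union] at h14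
        exact fun hh => (not_or.1 h14).1 (hh.1 h.1)
      · have h14 := h.2
        rw [mem_compl, mem_union] at h14
        exact fun hh => (not_or.1 h14).1 (hh.2 h.1)
    have hwe : w = e := by
      obtain ⟨z, hz⟩ := card_eq_one.1 h9
      rw [hz, mem_singleton] at hwA heA
      rw [hwA, heA]
    subst hwe
    rcases hw.2 with h | h
    · have h13 := h.2
      rw [mem_compl, mem_union] at h13
      rcases hxy with ⟨k1, k2⟩ | ⟨k1, k2⟩
      · rw [k1] at h
        exact (mem_sdiff.1 h.1).2 hxX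
      · rw [k1] at h13
        exact h13 (Or.inr hxX)
    · have h13 := h.2
      rw [mem_compl, mem_union] at h13
      rcases hxy with ⟨k1, k2⟩ | ⟨k1, k2⟩
      · rw [k1] at h13
        exact h13 (Or.inr hxX)
      · rw [k1] at h
        exact (mem_sdiff.1 h.1).2 hxX

theorem exists_maxBad {r : V} {k : ℕ} {U D : Finset E} {Z : Finset V} (hZ : Bad a b r k U D Z) :
    ∃ X, Z ⊆ X ∧ Bad a b r k U D X ∧ ∀ Y, Bad a b r k U D Y → X ⊆ Y → Y = X := by
  classical
  have hne : (univ.filter fun X : Finset V => Z ⊆ X ∧ Bad a b r k U D X).Nonempty :=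
    ⟨Z, mem_filter.2 ⟨mem_univ _, subset_rfl, hZ⟩⟩
  obtain ⟨X, hX, hmax⟩ := exists_max_image _ card hne
  rw [mem_filter] at hX
  refine ⟨X, hX.2.1, hX.2.2, fun Y hY hXY => ?_⟩
  have h1 := hmax Y (mem_filter.2 ⟨mem_univ _, hX.2.1.trans hXY, hY⟩)
  exact (eq_of_subset_of_card_le hXY h1).symm

theorem two_rec {n k : ℕ} (r : V) {U : Finset E}
    (h1 : ∀ Y : Finset V, Y.Nonempty → Y ≠ univ → k ≤ ((univ \ U) ∩ cut a b Y).card)
    (h2 : ∀ X : Finset V, X.Nonempty → r ∉ X →
      k + 1 + (U ∩ ins a b X).card ≤ ((univ \ U) ∩ cut a b X).card + (n + 1) * (X.card - 1))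
    (N : ℕ) : ∀ (M : ℕ) (C : Fin n → Finset E) (D : Finset E) (cov X : Finset V),
      Dist a b U C D → cov.card = N → X.card = M →
      (∀ Y, Bad a b r k U D Y → Y ⊆ cov) → (∀ y ∈ cov, ∃ Z, Bad a b r k U D Z ∧ y ∈ Z) →
      Bad a b r k U D X → (∀ Z, Bad a b r k U D Z → X ⊆ Z → Z = X) →
      ∃ (C' : Fin n → Finset E) (D' : Finset E), Dist a b U C' D' ∧
        ∀ Z, ¬ Bad a b r k U D' Z := by
  classical
  induction N using Nat.strong_induction_on with
  | _ N ihN =>
    intro M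
    induction M using Nat.strong_induction_on with
    | _ M ihM =>
      intro C D cov X hdist hcN hXM hc1 hc2 hX hmax
      obtain ⟨C', D', hdist', hcov, x, hxX, hx⟩ := two_step a b r hdist h1 h2 hX hmax
      by_cases hgood : ∀ Z, ¬ Bad a b r k U D' Z
      · exact ⟨C', D', hdist', hgood⟩
      push Not at hgood
      obtain ⟨Z0, hZ0⟩ := hgood
      let cov' : Finset V := univ.filter fun y => ∃ Z, Bad a b r k U D' Z ∧ y ∈ Z
      have hc1' : ∀ Y, Bad a b r k U D' Y → Y ⊆ cov' := fun Y hY y hy =>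
        mem_filter.2 ⟨mem_univ _, Y, hY, hy⟩
      have hc2' : ∀ y ∈ cov', ∃ Z, Bad a b r k U D' Z ∧ y ∈ Z := fun y hy =>
        (mem_filter.1 hy).2
      have hsub : cov' ⊆ cov := by
        intro y hy
        obtain ⟨Y, hY, hyY⟩ := hc2' y hy
        obtain ⟨Z, hZ, hyZ⟩ := hcov Y hY y hyY
        exact hc1 Z hZ hyZ
      by_cases heq : cov' = cov
      · have hxc : x ∈ cov' := by
          rw [heq]
          exact hc1 X hX hxX
        obtain ⟨Y, hY, hxY⟩ := hc2' x hxc
        obtain ⟨Z, hYZ, hZ, hZmax⟩ := exists_maxBad a b hY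
        have hlt := card_lt_card (hx Z hZ hZmax (hYZ hxY))
        exact ihM Z.card (by omega) C' D' cov' Z hdist' (by rw [heq, hcN]) rfl hc1' hc2' hZ hZmax
      · obtain ⟨Z, -, hZ, hZmax⟩ := exists_maxBad a b hZ0
        have hlt := card_lt_card (Finset.ssubset_iff_subset_ne.2 ⟨hsub, heq⟩)
        exact ihN cov'.card (by omega) Z.card C' D' cov' Z hdist' rfl rfl hc1' hc2' hZ hZmax

/-- one tree = plus two -/
theorem plus_two {n k : ℕ} (r : V) (B : Fin (n + 1) → Finset E) (hB : Trees a b B)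
    (h1 : ∀ Y : Finset V, Y.Nonempty → Y ≠ univ → k ≤ (cut a b Y \ un B).card)
    (h2 : ∀ X : Finset V, X.Nonempty → r ∉ X →
      k + 1 + (un B ∩ ins a b X).card ≤ (cut a b X \ un B).card + (n + 1) * (X.card - 1)) :
    ∃ (C : Fin n → Finset E) (D : Finset E), Trees a b C ∧ Tree a b D ∧
      (∀ i, Disjoint (C i) D) ∧ un C ∪ D = un B ∧
      ∀ Y : Finset V, Y.Nonempty → Y ≠ univ → k + 2 ≤ (cut a b Y \ un C).card := by
  classical
  have hsd : ∀ Y : Finset V, cut a b Y \ un B = (univ \ un B) ∩ cut a b Y := by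
    intro Y
    ext e
    simp only [mem_sdiff, mem_inter, mem_univ, true_and]
    tauto
  simp only [hsd] at h1 h2
  have hdist : Dist a b (un B) (fun i : Fin n => B i.castSucc) (B (Fin.last n)) := by
    refine ⟨⟨fun i => hB.1 _, fun i j hij => hB.2 _ _ fun h => hij (Fin.castSucc_injective _ h)⟩,
      hB.1 _, fun i => hB.2 _ _ (Fin.castSucc_lt_last i).ne, ?_⟩
    ext e
    rw [mem_union, mem_un, mem_un]
    constructor
    · rintro (⟨i, hi⟩ | h)
      · exact ⟨_, hi⟩
      · exact ⟨_, h⟩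
    · rintro ⟨i, hi⟩
      induction i using Fin.lastCases with
      | last => exact Or.inr hi
      | cast i => exact Or.inl ⟨i, hi⟩
  obtain ⟨C, D, hCD, hgood⟩ : ∃ (C : Fin n → Finset E) (D : Finset E),
      Dist a b (un B) C D ∧ ∀ Z, ¬ Bad a b r k (un B) D Z := by
    by_cases hg : ∀ Z, ¬ Bad a b r k (un B) (B (Fin.last n)) Z
    · exact ⟨_, _, hdist, hg⟩
    push Not at hg
    obtain ⟨Z0, hZ0⟩ := hg
    obtain ⟨Z, -, hZ, hZmax⟩ := exists_maxBad a b hZ0
    exact two_rec a b r h1 h2 _ _ _ _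
      (univ.filter fun y => ∃ Z, Bad a b r k (un B) (B (Fin.last n)) Z ∧ y ∈ Z) Z hdist rfl rfl
      (fun Y hY y hy => mem_filter.2 ⟨mem_univ _, Y, hY, hy⟩) (fun y hy => (mem_filter.1 hy).2)
      hZ hZmax
  refine ⟨C, D, hCD.trees, hCD.tree, hCD.disj, hCD.un, fun Y hY hYu => ?_⟩
  have hDU : D ⊆ un B := by rw [← hCD.un]; exact subset_union_right
  have heq : ∀ Y : Finset V, ((univ \ un B) ∪ D) ∩ cut a b Y = cut a b Y \ un C := by
    intro Y
    ext e
    simp only [mem_inter, mem_union, mem_sdiff, mem_univ, true_and]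
    constructor
    · rintro ⟨h | h, h'⟩
      · exact ⟨h', fun h3 => h (by rw [← hCD.un]; exact mem_union_left _ h3)⟩
      · refine ⟨h', fun h3 => ?_⟩
        obtain ⟨i, hi⟩ := mem_un.1 h3
        exact disjoint_left.1 (hCD.disj i) hi h
    · rintro ⟨h, h'⟩
      refine ⟨?_, h⟩
      by_cases h3 : e ∈ D
      · exact Or.inr h3
      · left
        rw [← hCD.un, mem_union]
        tauto
  by_cases hr : r ∈ Y
  · have hY' : Yᶜ.Nonempty := by
      rw [nonempty_iff_ne_empty, Ne, compl_eq_empty_iff]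
      exact hYu
    have h3 := hgood Yᶜ
    by_contra hh
    apply h3
    refine ⟨hY', fun h => (mem_compl.1 h) hr, ?_⟩
    rw [heq, tw_cut_compl]
    omega
  · have h3 := hgood Y
    by_contra hh
    apply h3
    refine ⟨hY, hr, ?_⟩
    rw [heq]
    omega

end Pool.Agent.Lib.MP_21a058_co.Every
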