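import Pool.Agent.Lib.MP_21a058_co.Every.Rise0
import Pool.Agent.Lib.MP_21a058_co.Every.Two

/-! MP_21a058_co, all tuples: `rise`. -/

namespace Pool.Agent.Lib.MP_21a058_co.Every

open Finset
open Pool.Agent.Lib.MP_21a058_co.P

variable {V E : Type} [Fintype V] [DecidableEq V] [Fintype E] [DecidableEq E] (a b : E → V)

theorem rise (r : V) (s j c : ℕ) (B : Fin (s + j) → Finset E) (hB : Trees a b B)
    (h1 : ∀ Y : Finset V, Y.Nonempty → Y ≠ univ → 2 * c ≤ (cut a b Y \ un B).card)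
    (h2 : ∀ X : Finset V, X.Nonempty → r ∉ X →
      2 * c + j + (un B ∩ ins a b X).card ≤
        (cut a b X \ un B).card + (s + j) * (X.card - 1)) :
    ∃ A : Fin s → Finset E, Trees a b A ∧
      ∀ Y : Finset V, Y.Nonempty → Y ≠ univ → 2 * (c + j) ≤ (cut a b Y \ un A).card :=
  rise_of a b r (fun _ _ B hB h1 h2 => plus_two a b r B hB h1 h2) s j c B hB h1 h2

end Pool.Agent.Lib.MP_21a058_co.Every
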