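import Pool.Agent.Lib.MP_21a058_co.Every.Defs
import Pool.Agent.Lib.MP_21a058_co.P.Corners

/-! Moving trees one after the other: every step gives two more edges in every cut. -/

namespace Pool.Agent.Lib.MP_21a058_co.Every

open Finset
open Pool.Agent.Lib.MP_21a058_co.P

variable {V E : Type} [Fintype V] [DecidableEq V] [Fintype E] [DecidableEq E] (a b : E → V)

/-- A connected spanning class touches a proper vertex set `X` in at least `|X|` edges. -/
theorem card_le_touch {B : Finset E} (hB : ConnOn a b B univ) {r : V}
    {X : Finset V} (hr : r ∉ X) : X.card ≤ (B ∩ cut a b X).card + (B ∩ ins a b X).card := by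
  classical
  have h := colour_le hB (fun v => if v ∈ X then some v else none)
  have h1 : insert none (X.image some) ⊆ (univ : Finset V).image
      (fun v => if v ∈ X then some v else none) := by
    intro o ho
    rcases mem_insert.1 ho with rfl | ho
    · exact mem_image.2 ⟨r, mem_univ _, if_neg hr⟩
    · obtain ⟨x, hx, rfl⟩ := mem_image.1 ho
      exact mem_image.2 ⟨x, mem_univ _, if_pos hx⟩
  have h2 := card_le_card h1
  rw [card_insert_of_notMem (by simp), card_image_of_injective _ (Option.some_injective V)] at h2
  have h3 : (B.filter fun e => e ∈ ins a b univ ∧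
      (if a e ∈ X then some (a e) else none) ≠ (if b e ∈ X then some (b e) else none)) ⊆
      (B ∩ cut a b X) ∪ (B ∩ ins a b X) := by
    intro e he
    obtain ⟨he1, -, he2⟩ := mem_filter.1 he
    rw [mem_union, mem_inter, mem_inter, mem_ins, mem_cut]
    by_cases h1 : a e ∈ X <;> by_cases h2 : b e ∈ X <;> simp_all
  have h4 := (card_le_card h3).trans (card_union_le _ _)
  omega

/-- The statement of one step. -/
def PlusTwo (r : V) : Prop :=
  ∀ (n k : ℕ) (B : Fin (n + 1) → Finset E), Trees a b B →
    (∀ Y : Finset V, Y.Nonempty → Y ≠ univ → k ≤ (cut a b Y \ un B).card) →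
    (∀ X : Finset V, X.Nonempty → r ∉ X →
      k + 1 + (un B ∩ ins a b X).card ≤ (cut a b X \ un B).card + (n + 1) * (X.card - 1)) →
    ∃ (C : Fin n → Finset E) (D : Finset E), Trees a b C ∧ Tree a b D ∧
      (∀ i, Disjoint (C i) D) ∧ un C ∪ D = un B ∧
      ∀ Y : Finset V, Y.Nonempty → Y ≠ univ → k + 2 ≤ (cut a b Y \ un C).card

theorem rise_of (r : V) (two : PlusTwo a b r) (s : ℕ) : ∀ (j c : ℕ)
    (B : Fin (s + j) → Finset E), Trees a b B →
    (∀ Y : Finset V, Y.Nonempty → Y ≠ univ → 2 * c ≤ (cut a b Y \ un B).card) →
    (∀ X : Finset V, X.Nonempty → r ∉ X →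
      2 * c + j + (un B ∩ ins a b X).card ≤
        (cut a b X \ un B).card + (s + j) * (X.card - 1)) →
    ∃ A : Fin s → Finset E, Trees a b A ∧
      ∀ Y : Finset V, Y.Nonempty → Y ≠ univ → 2 * (c + j) ≤ (cut a b Y \ un A).card := by
  intro j
  induction j with
  | zero => exact fun c B hB h1 _ => ⟨B, hB, h1⟩
  | succ j ih =>
    intro c B hB h1 h2
    obtain ⟨C, D, hC, hD, hCD, hU, h3⟩ := two (s + j) (2 * c) B hB h1 (by
      intro X hX hr
      have g := h2 X hX hr
      have g3 : (s + (j + 1)) * (X.card - 1) = (s + j + 1) * (X.card - 1) := rfl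
      rw [g3] at g
      omega)
    have hdis : Disjoint (un C) D := by
      rw [un, disjoint_biUnion_left]
      exact fun i _ => hCD i
    obtain ⟨A, hA1, hA2⟩ := ih (c + 1) C hC
      (by
        intro X hX hX'
        have := h3 X hX hX'
        omega)
      (by
        intro X hX hr
        have g := h2 X hX hr
        have gD := card_le_touch a b hD.1 hr
        rw [← hU] at g
        have hX1 : 1 ≤ X.card := hX.card_pos
        have g1 : ((un C ∪ D) ∩ ins a b X).card =
            (un C ∩ ins a b X).card + (D ∩ ins a b X).card := by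
          rw [union_inter_distrib_right, card_union_of_disjoint]
          exact (hdis.mono inter_subset_left inter_subset_left)
        have g2 : (cut a b X \ un C).card =
            (cut a b X \ (un C ∪ D)).card + (D ∩ cut a b X).card := by
          rw [← card_union_of_disjoint]
          · congr 1
            ext e
            simp only [mem_sdiff, mem_union, mem_inter]
            have : e ∈ D → e ∉ un C := fun h h' => (disjoint_left.1 hdis) h' h
            tauto
          · rw [disjoint_left]
            intro e he he'
            exact (mem_sdiff.1 he).2 (mem_union_right _ (mem_inter.1 he').1)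
        rw [g1] at g
        rw [g2]
        have g3 : (s + (j + 1)) * (X.card - 1) = (s + j) * (X.card - 1) + (X.card - 1) := by ring
        rw [g3] at g
        omega)
    refine ⟨A, hA1, ?_⟩
    intro X hX hX'
    have := hA2 X hX hX'
    omega

end Pool.Agent.Lib.MP_21a058_co.Every
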