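import Pool.Agent.Lib.MP_21a058_co.Every.Sub
import Pool.Agent.Lib.MP_21a058_co.Every.RoundT

/-!
# Rounding `T` of `t` disjoint bases under an intersecting submodular bound

As `round_rk` / `round_trees`, but for ALL sets of vertices without `r0` at once and with any bound `h`
which is submodular on intersecting sets and valid for the fractional point `T / t`.
-/

set_option linter.unusedSectionVars false
set_option linter.unusedVariables false

namespace Pool.Agent.Lib.MP_21a058_co.Every

open Finset
open Pool.Agent.Lib.MP_21a058_co.P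
open MP21a058

/-- rank of the projection -/
theorem proj_rk {α β : Type} [DecidableEq α] [DecidableEq β] (f : β → α) {r : Finset α → ℕ}
    (hr : Rk r) : Rk (fun S : Finset β => r (S.image f)) where
  emp := by
    rw [image_empty]
    exact hr.emp
  mono A B hAB := hr.mono _ _ (image_subset_image hAB)
  one A e := by
    rw [image_insert]
    exact hr.one _ _
  sub A B := by
    have h1 := hr.sub (A.image f) (B.image f)
    have h2 := hr.mono _ _ (image_inter_subset f A B)
    rw [image_union]
    omega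

/-- rounding `T` of `t` disjoint bases, any rank function, any intersecting submodular bound -/
theorem round_sub_rk {V E : Type} [Fintype V] [DecidableEq V] [Fintype E] [DecidableEq E]
    {r : Finset E → ℕ} (hr : Rk r) (ρ : ℕ) {t T : ℕ} (hT : T ≤ t) (ht : 0 < t)
    (B : Fin t → Finset E) (hB : ∀ i, (B i).card = ρ ∧ r (B i) = ρ)
    (hd : ∀ i j, i ≠ j → Disjoint (B i) (B j)) (hle : ∀ J, r J ≤ ρ) (p : E → V) (r0 : V)
    (h : Finset V → ℕ) (hsub : ∀ X Y : Finset V, r0 ∉ X → r0 ∉ Y → (X ∩ Y).Nonempty →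
      h (X ∪ Y) + h (X ∩ Y) ≤ h X + h Y)
    (hH : ∀ Y : Finset V, Y.Nonempty → r0 ∉ Y →
      T * ((un B).filter fun e => p e ∈ Y).card ≤ t * h Y) :
    ∃ C : Fin T → Finset E, (∀ i, (C i).card = ρ ∧ r (C i) = ρ) ∧
      (∀ i j, i ≠ j → Disjoint (C i) (C j)) ∧ un C ⊆ un B ∧
      ∀ Y : Finset V, Y.Nonempty → r0 ∉ Y →
        ((un C).filter fun e => p e ∈ Y).card ≤ h Y := by
  classical
  have hun : (un B).card = t * ρ := by
    unfold un
    rw [card_biUnion (fun i _ j _ hij => hd i j hij), sum_congr rfl fun i _ => (hB i).1,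
      sum_const, card_univ, Fintype.card_fin, smul_eq_mul]
  let G : Finset (E × Fin T) := un B ×ˢ univ
  have hG : ∀ x, x ∈ G ↔ x.1 ∈ un B := by
    intro x
    simp [G]
  have hnr := nrk_rk (E := E) (p := p) hsub
  have h1 := slc_rk (t := T) hr
  have h2 := proj_rk (Prod.fst : E × Fin T → E) hnr
  obtain ⟨I, hIG, hIc, hI1, hI2⟩ := inter_rk G h1 h2 (T * ρ) (by
    intro J hJ
    set A : Finset E := (un B).filter fun e => ∀ c : Fin T, (e, c) ∈ J with hA
    have e1 : T * r A ≤ ∑ c : Fin T, r (slc J c) := by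
      calc T * r A = ∑ _c : Fin T, r A := by
            rw [sum_const, card_univ, Fintype.card_fin, smul_eq_mul]
        _ ≤ ∑ c : Fin T, r (slc J c) := by
            apply sum_le_sum
            intro c _
            apply hr.mono
            intro e he
            rw [mem_slc]
            exact (mem_filter.1 he).2 c
    have e2 : un B \ A ⊆ (G \ J).image Prod.fst := by
      intro e he
      rw [mem_sdiff, hA, mem_filter] at he
      have h3 : ¬ ∀ c : Fin T, (e, c) ∈ J := fun h4 => he.2 ⟨he.1, h4⟩
      push Not at h3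
      obtain ⟨c, hc⟩ := h3
      exact mem_image.2 ⟨(e, c), mem_sdiff.2 ⟨(hG _).2 he.1, hc⟩, rfl⟩
    have e3 : nrk p r0 h (un B \ A) ≤ nrk p r0 h ((G \ J).image Prod.fst) := hnr.mono _ _ e2
    have e4 : T * (un B \ A).card ≤ t * nrk p r0 h (un B \ A) :=
      le_mul_nrk hsub hT sdiff_subset hH
    have e5 : A.card ≤ t * r A :=
      Thin.one_card_le hr (B := B) (fun i => (hB i).2.trans (hB i).1.symm) (filter_subset _ _)
    have e6 : (un B \ A).card + A.card = t * ρ := by
      rw [← hun]
      exact card_sdiff_add_card_eq_card (filter_subset _ _)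
    have e7 : t * (T * ρ) ≤ t * (T * r A + nrk p r0 h (un B \ A)) := by
      have e8 : T * A.card ≤ T * (t * r A) := Nat.mul_le_mul_left _ e5
      calc t * (T * ρ) = T * (t * ρ) := by ring
        _ = T * (un B \ A).card + T * A.card := by rw [← e6, mul_add]
        _ ≤ t * nrk p r0 h (un B \ A) + T * (t * r A) := Nat.add_le_add e4 e8
        _ = t * (T * r A + nrk p r0 h (un B \ A)) := by ring
    have e9 := Nat.le_of_mul_le_mul_left e7 ht
    omega)
  have hsubB : I.image Prod.fst ⊆ un B := by
    intro e he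
    obtain ⟨x, hx, rfl⟩ := mem_image.1 he
    exact (hG x).1 (hIG hx)
  have hI2' : nrk p r0 h (I.image Prod.fst) = T * ρ := hI2
  have hI1' : ∑ c, r (slc I c) = T * ρ := hI1
  have hcI : (I.image Prod.fst).card = I.card := by
    have h3 := hnr.le_card (I.image Prod.fst)
    have h4 : (I.image Prod.fst).card ≤ I.card := card_image_le
    omega
  have hinj : Set.InjOn (Prod.fst : E × Fin T → E) I := card_image_iff.1 hcI
  have hnind : Nind p r0 h (I.image Prod.fst) := nind_of_nrk (by omega)
  have hrr : ∀ c, r (slc I c) = ρ := by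
    intro c
    by_contra hcon
    have hlt : ∑ c, r (slc I c) < ∑ _c : Fin T, ρ := by
      apply sum_lt_sum
      · intro j _
        exact hle _
      · exact ⟨c, mem_univ c, lt_of_le_of_ne (hle _) hcon⟩
    rw [sum_const, card_univ, Fintype.card_fin, smul_eq_mul] at hlt
    omega
  have hcc : ∀ c, (slc I c).card = ρ := by
    have h0 : ∀ c, ρ ≤ (slc I c).card := fun c => by
      rw [← hrr c]
      exact hr.le_card _
    intro c
    by_contra hcon
    have hlt : ∑ _c : Fin T, ρ < ∑ c, (slc I c).card := by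
      apply sum_lt_sum
      · intro j _
        exact h0 j
      · exact ⟨c, mem_univ c, lt_of_le_of_ne (h0 c) (Ne.symm hcon)⟩
    rw [sum_const, card_univ, Fintype.card_fin, smul_eq_mul, sum_card_slc] at hlt
    omega
  refine ⟨fun c => slc I c, fun c => ⟨hcc c, hrr c⟩, ?_, ?_, ?_⟩
  · intro i j hij
    rw [disjoint_left]
    intro e h3 h4
    rw [mem_slc] at h3 h4
    have h5 := hinj (mem_coe.2 h3) (mem_coe.2 h4) rfl
    exact hij (Prod.mk.inj h5).2
  · intro e he
    obtain ⟨c, hc⟩ := mem_un.1 he
    rw [mem_slc] at hc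
    exact (hG _).1 (hIG hc)
  · intro Y hY hr0
    refine le_trans (card_le_card (filter_subset_filter _ ?_)) (hnind Y hY hr0)
    intro e he
    obtain ⟨c, hc⟩ := mem_un.1 he
    rw [mem_slc] at hc
    exact mem_image.2 ⟨(e, c), hc, rfl⟩

variable {V E : Type} [Fintype V] [DecidableEq V] [Fintype E] [DecidableEq E] (a b : E → V)

/-- `T` of `t` disjoint spanning trees under an intersecting submodular bound on the tails -/
theorem round_sub {t T : ℕ} (hT : T ≤ t) (ht : 0 < t) (B : Fin t → Finset E)
    (hB : Trees a b B) (p : E → V) (r0 : V)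
    (h : Finset V → ℕ) (hsub : ∀ X Y : Finset V, r0 ∉ X → r0 ∉ Y → (X ∩ Y).Nonempty →
      h (X ∪ Y) + h (X ∩ Y) ≤ h X + h Y)
    (hH : ∀ Y : Finset V, Y.Nonempty → r0 ∉ Y →
      T * ((un B).filter fun e => p e ∈ Y).card ≤ t * h Y) :
    ∃ C : Fin T → Finset E, Trees a b C ∧ un C ⊆ un B ∧
      ∀ Y : Finset V, Y.Nonempty → r0 ∉ Y →
        ((un C).filter fun e => p e ∈ Y).card ≤ h Y := by
  have hc0 := (hB.1 ⟨0, ht⟩).2
  have hle : ∀ J, rk a b J ≤ Fintype.card V - 1 := by
    intro J
    have h1 : 0 < Fintype.card V := by omega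
    have h2 := rk_add_image_le a b (F := J) (fun _ => ()) (fun _ _ => rfl)
    have h3 : 0 < ((univ : Finset V).image fun _ => ()).card := by
      rw [card_pos]
      haveI : Nonempty V := Fintype.card_pos_iff.1 h1
      exact univ_nonempty.image _
    omega
  have hB2 : ∀ i, (B i).card = Fintype.card V - 1 ∧ rk a b (B i) = Fintype.card V - 1 := by
    intro i
    have h1 := (hB.1 i).2
    have h2 := card_le_of_conn a b (hB.1 i).1
    rw [card_univ] at h2
    have h3 := hle (B i)
    exact ⟨by omega, by omega⟩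
  obtain ⟨C, h1, h2, h3, h4⟩ := round_sub_rk (rk_rk a b) (Fintype.card V - 1) hT ht B hB2 hB.2
    hle p r0 h hsub hH
  refine ⟨C, ⟨fun i => ⟨?_, ?_⟩, h2⟩, h3, h4⟩
  · apply conn_of_card_le a b
    · intro e _
      rw [mem_ins]
      exact ⟨mem_univ _, mem_univ _⟩
    · rw [card_univ, (h1 i).2]
      omega
  · rw [(h1 i).1]
    omega

end Pool.Agent.Lib.MP_21a058_co.Every
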