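import Pool.Agent.Lib.MP_21a058_co.Thin.Rk
import Pool.Agent.Lib.MP_21a058_co.P.Rado

/-!
# The matroid of an intersecting submodular function on the tails

`p e` is one end of the edge `e`, `h` an intersecting submodular function on the sets of vertices without
`r`. The sets `I` of edges with `|{e ∈ I : p e ∈ Y}| ≤ h Y` for all nonempty `Y` without `r` are the
independent sets of a matroid; `nrk` is its rank function.
-/

set_option linter.unusedSectionVars false
set_option linter.unusedVariables false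

namespace Pool.Agent.Lib.MP_21a058_co.Every

open Finset MP21a058

/-- matroid intersection for rank functions in the sense of `Rk` -/
theorem inter_rk {α : Type} [inst : DecidableEq α] (G : Finset α) {r1 r2 : Finset α → ℕ}
    (h1 : Rk r1) (h2 : Rk r2) (k : ℕ) (h : ∀ J ⊆ G, k ≤ r1 J + r2 (G \ J)) :
    ∃ I ⊆ G, I.card = k ∧ r1 I = k ∧ r2 I = k := by
  have hi : inst = fun x y => Classical.propDecidable (x = y) := Subsingleton.elim _ _
  subst hi
  letI : DecidableEq α := fun x y => Classical.propDecidable (x = y)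
  exact Thin.intersection G ⟨r1, h1.emp, h1.mono, fun e A => h1.one A e, h1.sub⟩
    ⟨r2, h2.emp, h2.mono, fun e A => h2.one A e, h2.sub⟩ k h

section
variable {V E : Type} [Fintype V] [DecidableEq V] [DecidableEq E] (p : E → V) (r : V)
  (h : Finset V → ℕ)

/-- independent sets -/
def Nind (I : Finset E) : Prop :=
  ∀ Y : Finset V, Y.Nonempty → r ∉ Y → (I.filter fun e => p e ∈ Y).card ≤ h Y

open scoped Classical in
/-- the rank function -/
noncomputable def nrk (A : Finset E) : ℕ :=
  (A.powerset.filter fun I => Nind p r h I).sup card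

variable {p r h}

theorem Nind.mono {I J : Finset E} (hJ : Nind p r h J) (hIJ : I ⊆ J) : Nind p r h I :=
  fun Y hY hr => (card_le_card (filter_subset_filter _ hIJ)).trans (hJ Y hY hr)

theorem nind_empty : Nind p r h (∅ : Finset E) := fun Y _ _ => by simp

theorem le_nrk {I A : Finset E} (hI : Nind p r h I) (hIA : I ⊆ A) : I.card ≤ nrk p r h A := by
  classical
  exact le_sup (f := card) (mem_filter.2 ⟨mem_powerset.2 hIA, hI⟩)

theorem nrk_le {A : Finset E} {n : ℕ} (hn : ∀ I ⊆ A, Nind p r h I → I.card ≤ n) :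
    nrk p r h A ≤ n := by
  classical
  refine Finset.sup_le fun I hI => ?_
  rw [mem_filter, mem_powerset] at hI
  exact hn I hI.1 hI.2

/-- extension to a maximal independent set -/
theorem exists_maxl {I A : Finset E} (hI : Nind p r h I) (hIA : I ⊆ A) :
    ∃ J, I ⊆ J ∧ J ⊆ A ∧ Nind p r h J ∧ ∀ e ∈ A \ J, ¬ Nind p r h (insert e J) := by
  classical
  obtain ⟨J, hJ, hmax⟩ := exists_max_image
    (A.powerset.filter fun J => I ⊆ J ∧ Nind p r h J) card
    ⟨I, mem_filter.2 ⟨mem_powerset.2 hIA, Subset.refl _, hI⟩⟩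
  rw [mem_filter, mem_powerset] at hJ
  refine ⟨J, hJ.2.1, hJ.1, hJ.2.2, fun e he hcon => ?_⟩
  rw [mem_sdiff] at he
  have h1 := hmax (insert e J) (mem_filter.2 ⟨mem_powerset.2 (insert_subset he.1 hJ.1),
    hJ.2.1.trans (subset_insert _ _), hcon⟩)
  rw [card_insert_of_notMem he.2] at h1
  omega

/-- splitting a set of edges along a disjoint family -/
theorem card_split_fam {D : Finset (Finset V)} (hD : ∀ X ∈ D, ∀ Y ∈ D, X ≠ Y → Disjoint X Y)
    (J : Finset E) : J.card = (∑ Y ∈ D, (J.filter fun e => p e ∈ Y).card) +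
      (J.filter fun e => ∀ Y ∈ D, p e ∉ Y).card := by
  have h1 : (J.filter fun e => ∃ Y ∈ D, p e ∈ Y) =
      D.biUnion fun Y => J.filter fun e => p e ∈ Y := by
    ext e
    simp only [mem_filter, mem_biUnion]
    tauto
  have h2 : (D.biUnion fun Y => J.filter fun e => p e ∈ Y).card =
      ∑ Y ∈ D, (J.filter fun e => p e ∈ Y).card := by
    apply card_biUnion
    intro X hX Y hY hXY
    rw [Function.onFun, disjoint_left]
    intro e h3 h4
    rw [mem_filter] at h3 h4
    exact disjoint_left.1 (hD X hX Y hY hXY) h3.2 h4.2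
  have h3 : (J.filter fun e => ∀ Y ∈ D, p e ∉ Y) = J.filter fun e => ¬ ∃ Y ∈ D, p e ∈ Y := by
    apply filter_congr
    intro e _
    push Not
    rfl
  rw [h3, ← h2, ← h1, card_filter_add_card_filter_not]

variable (hsub : ∀ X Y : Finset V, r ∉ X → r ∉ Y → (X ∩ Y).Nonempty →
  h (X ∪ Y) + h (X ∩ Y) ≤ h X + h Y)
include hsub

/-- the tight sets over the elements which do not extend `I` -/
theorem exists_fam {I A : Finset E} (hI : Nind p r h I)
    (hmax : ∀ e ∈ A \ I, ¬ Nind p r h (insert e I)) :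
    ∃ D : Finset (Finset V), (∀ X ∈ D, ∀ Y ∈ D, X ≠ Y → Disjoint X Y) ∧
      (∀ Y ∈ D, Y.Nonempty ∧ r ∉ Y ∧ (I.filter fun e => p e ∈ Y).card = h Y) ∧
      ∀ e ∈ A \ I, ∃ Y ∈ D, p e ∈ Y := by
  classical
  let T : Finset (Finset V) := univ.filter fun Y =>
    Y.Nonempty ∧ r ∉ Y ∧ (I.filter fun e => p e ∈ Y).card = h Y
  have hT : ∀ Y, Y ∈ T ↔ Y.Nonempty ∧ r ∉ Y ∧ (I.filter fun e => p e ∈ Y).card = h Y := by
    intro Y
    simp [T]
  have hun : ∀ X ∈ T, ∀ Y ∈ T, (X ∩ Y).Nonempty → X ∪ Y ∈ T := by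
    intro X hX Y hY hXY
    rw [hT] at hX hY ⊢
    have hrU : r ∉ X ∪ Y := by
      rw [mem_union]
      exact fun h1 => h1.elim hX.2.1 hY.2.1
    have hrI : r ∉ X ∩ Y := fun h1 => hX.2.1 (mem_inter.1 h1).1
    have e1 := hI (X ∪ Y) (hX.1.mono subset_union_left) hrU
    have e2 := hI (X ∩ Y) hXY hrI
    have e3 := hsub X Y hX.2.1 hY.2.1 hXY
    have e4 : (I.filter fun e => p e ∈ X ∪ Y).card + (I.filter fun e => p e ∈ X ∩ Y).card =
        (I.filter fun e => p e ∈ X).card + (I.filter fun e => p e ∈ Y).card := by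
      have e5 : (I.filter fun e => p e ∈ X ∪ Y) =
          (I.filter fun e => p e ∈ X) ∪ (I.filter fun e => p e ∈ Y) := by
        ext e
        simp only [mem_filter, mem_union]
        tauto
      have e6 : (I.filter fun e => p e ∈ X ∩ Y) =
          (I.filter fun e => p e ∈ X) ∩ (I.filter fun e => p e ∈ Y) := by
        ext e
        simp only [mem_filter, mem_inter]
        tauto
      rw [e5, e6]
      exact card_union_add_card_inter _ _
    refine ⟨hX.1.mono subset_union_left, hrU, ?_⟩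
    omega
  refine ⟨T.filter fun Y => ∀ Z ∈ T, Y ⊆ Z → Z ⊆ Y, ?_, ?_, ?_⟩
  · intro X hX Y hY hXY
    rw [mem_filter] at hX hY
    by_contra hdis
    rw [not_disjoint_iff_nonempty_inter] at hdis
    have h1 := hun X hX.1 Y hY.1 hdis
    have h2 := hX.2 _ h1 subset_union_left
    have h3 := hY.2 _ h1 subset_union_right
    exact hXY (subset_antisymm (subset_union_left.trans h3) (subset_union_right.trans h2))
  · intro Y hY
    exact (hT Y).1 (mem_filter.1 hY).1
  · intro e he
    have h1 := hmax e he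
    unfold Nind at h1
    push Not at h1
    obtain ⟨Y, hY, hr, h2⟩ := h1
    have heI : e ∉ I := (mem_sdiff.1 he).2
    have h3 := hI Y hY hr
    have h4 : p e ∈ Y ∧ (I.filter fun e => p e ∈ Y).card = h Y := by
      rw [filter_insert] at h2
      split_ifs at h2 with h5
      · have h6 := card_insert_le e (I.filter fun e => p e ∈ Y)
        exact ⟨h5, by omega⟩
      · omega
    obtain ⟨Z, hZ, hZmax⟩ := exists_max_image (T.filter fun Z => Y ⊆ Z) card
      ⟨Y, mem_filter.2 ⟨(hT Y).2 ⟨hY, hr, h4.2⟩, Subset.refl _⟩⟩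
    rw [mem_filter] at hZ
    refine ⟨Z, mem_filter.2 ⟨hZ.1, fun W hW hZW => ?_⟩, hZ.2 h4.1⟩
    have h5 := hZmax W (mem_filter.2 ⟨hW, hZ.2.trans hZW⟩)
    exact (eq_of_subset_of_card_le hZW h5).symm.subset

/-- a maximal independent subset is a largest one -/
theorem card_le_of_maxl {I J A : Finset E} (hI : Nind p r h I)
    (hmax : ∀ e ∈ A \ I, ¬ Nind p r h (insert e I)) (hJ : Nind p r h J) (hJA : J ⊆ A) :
    J.card ≤ I.card := by
  classical
  obtain ⟨D, hD, hD1, hD2⟩ := exists_fam hsub hI hmax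
  rw [card_split_fam (p := p) hD J, card_split_fam (p := p) hD I]
  refine Nat.add_le_add (sum_le_sum fun Y hY => ?_) (card_le_card fun e he => ?_)
  · rw [(hD1 Y hY).2.2]
    exact hJ Y (hD1 Y hY).1 (hD1 Y hY).2.1
  · rw [mem_filter] at he ⊢
    refine ⟨?_, he.2⟩
    by_contra heI
    obtain ⟨Y, hY, hpe⟩ := hD2 e (mem_sdiff.2 ⟨hJA he.1, heI⟩)
    exact he.2 Y hY hpe

theorem nrk_eq {I A : Finset E} (hI : Nind p r h I) (hIA : I ⊆ A)
    (hmax : ∀ e ∈ A \ I, ¬ Nind p r h (insert e I)) : nrk p r h A = I.card :=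
  le_antisymm (nrk_le fun J hJA hJ => card_le_of_maxl hsub hI hmax hJ hJA) (le_nrk hI hIA)

/-- `nrk` is a matroid rank function -/
theorem nrk_rk : Rk (nrk p r h : Finset E → ℕ) where
  emp := by
    refine Nat.le_zero.1 (nrk_le fun I hI _ => ?_)
    rw [subset_empty.1 hI, card_empty]
  mono A B hAB := nrk_le fun I hI hI2 => le_nrk hI2 (hI.trans hAB)
  one A e := by
    refine nrk_le fun I hI hI2 => ?_
    have h1 : I.erase e ⊆ A := by
      intro x hx
      rw [mem_erase] at hx
      exact (mem_insert.1 (hI hx.2)).resolve_left hx.1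
    have h2 := le_nrk (hI2.mono (erase_subset e I)) h1
    have h3 := pred_card_le_card_erase (s := I) (a := e)
    omega
  sub A B := by
    obtain ⟨I0, -, hI0, hI0', hm0⟩ := exists_maxl (p := p) (r := r) (h := h)
      (nind_empty (E := E)) (empty_subset (A ∩ B))
    obtain ⟨I, hI, hIU, hI', hm⟩ := exists_maxl hI0' (hI0.trans
      (inter_subset_left.trans subset_union_left) : I0 ⊆ A ∪ B)
    rw [nrk_eq hsub hI' hIU hm, nrk_eq hsub hI0' hI0 hm0]
    have h1 := le_nrk (hI'.mono (inter_subset_left (s₁ := I) (s₂ := A))) inter_subset_right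
    have h2 := le_nrk (hI'.mono (inter_subset_left (s₁ := I) (s₂ := B))) inter_subset_right
    have h3 := card_union_add_card_inter (I ∩ A) (I ∩ B)
    have h4 : (I ∩ A) ∪ (I ∩ B) = I := by
      rw [← inter_union_distrib_left]
      exact inter_eq_left.2 hIU
    have h5 : I0.card ≤ ((I ∩ A) ∩ (I ∩ B)).card := by
      apply card_le_card
      intro e he
      have h6 := mem_inter.1 (hI0 he)
      have h7 := hI he
      simp only [mem_inter]
      exact ⟨⟨h7, h6.1⟩, h7, h6.2⟩
    rw [h4] at h3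
    omega

/-- the rank is at least the average -/
theorem le_mul_nrk {H A : Finset E} {t T : ℕ} (hTt : T ≤ t) (hAH : A ⊆ H)
    (hH : ∀ Y : Finset V, Y.Nonempty → r ∉ Y → T * (H.filter fun e => p e ∈ Y).card ≤ t * h Y) :
    T * A.card ≤ t * nrk p r h A := by
  classical
  obtain ⟨I, -, hIA, hI, hm⟩ := exists_maxl (p := p) (r := r) (h := h)
    (nind_empty (E := E)) (empty_subset A)
  obtain ⟨D, hD, hD1, hD2⟩ := exists_fam hsub hI hm
  rw [nrk_eq hsub hI hIA hm, card_split_fam (p := p) hD A, card_split_fam (p := p) hD I, mul_add,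
    mul_add, mul_sum, mul_sum]
  refine Nat.add_le_add (sum_le_sum fun Y hY => ?_) ?_
  · rw [(hD1 Y hY).2.2]
    refine le_trans ?_ (hH Y (hD1 Y hY).1 (hD1 Y hY).2.1)
    exact Nat.mul_le_mul_left _ (card_le_card (filter_subset_filter _ hAH))
  · refine Nat.mul_le_mul hTt (card_le_card fun e he => ?_)
    rw [mem_filter] at he ⊢
    refine ⟨?_, he.2⟩
    by_contra heI
    obtain ⟨Y, hY, hpe⟩ := hD2 e (mem_sdiff.2 ⟨he.1, heI⟩)
    exact he.2 Y hY hpe

omit hsub in
/-- a set of full rank is independent -/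
theorem nind_of_nrk {A : Finset E} (hA : A.card ≤ nrk p r h A) : Nind p r h A := by
  classical
  by_cases h0 : A.card = 0
  · rw [card_eq_zero.1 h0]
    exact nind_empty
  · obtain ⟨I, hI, hIe⟩ := exists_mem_eq_sup (A.powerset.filter fun I => Nind p r h I)
      ⟨∅, mem_filter.2 ⟨mem_powerset.2 (empty_subset _), nind_empty⟩⟩ card
    rw [mem_filter, mem_powerset] at hI
    have h1 : nrk p r h A = I.card := by
      rw [← hIe]
      rfl
    have h2 : I = A := eq_of_subset_of_card_le hI.1 (by omega)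
    exact h2 ▸ hI.2

end

end Pool.Agent.Lib.MP_21a058_co.Every
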